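import Pool.Agent.H58.OVT.Lists

/-! The switching lemma for decision lists. -/

set_option autoImplicit false
set_option maxHeartbeats 4000000

namespace Pool.Agent.H58.OVT

open Pool.Agent.H58.OVAC Pool.Agent.H58.OVPR

/-- Decision tree depth less than `s`. -/
def Dlt {V Y : Type} [DecidableEq V] : ℕ → ((V → Bool) → Y) → Prop
  | 0, _ => False
  | s + 1, f => Dt s f

theorem Dlt.of_const {V Y : Type} [DecidableEq V] {s : ℕ} (hs : 1 ≤ s) {f : (V → Bool) → Y}
    (h : ∀ σ τ, f σ = f τ) : Dlt s f := by
  cases s with
  | zero => omega
  | succ s => exact Dt.of_const h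

/-- The restriction given by `ω`: the coordinates of colour `j` are alive. -/
def rho {V : Type} {N : ℕ} (j : Fin N) (ω : V → Fin N × Bool) : V → Option Bool :=
  fun i => if (ω i).1 = j then none else some (ω i).2

/-- The event is stable under fixing more coordinates. -/
def Refine {V : Type} [DecidableEq V] (E : (V → Option Bool) → Prop) : Prop :=
  ∀ ρ i b, E ρ → ρ i = none → E (Function.update ρ i (some b))

section

variable {V Y : Type} [DecidableEq V]

theorem Refine.of_le {E : (V → Option Bool) → Prop} (hE : Refine E) (S : Finset V) :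
    ∀ ρ ρ' : V → Option Bool, (∀ i, i ∉ S → ρ' i = ρ i) → (∀ i ∈ S, ρ i = none) →
      (∀ i ∈ S, ρ' i ≠ none) → E ρ → E ρ' := by
  induction S using Finset.induction_on with
  | empty =>
    intro ρ ρ' h1 _ _ h
    have : ρ' = ρ := funext fun i => h1 i (Finset.notMem_empty i)
    rw [this]
    exact h
  | insert i S hi ih =>
    intro ρ ρ' h1 h2 h3 h
    obtain ⟨b, hb⟩ := Option.ne_none_iff_exists'.1 (h3 i (Finset.mem_insert_self _ _))
    refine ih (Function.update ρ i (some b)) ρ' ?_ ?_ ?_
      (hE ρ i b h (h2 i (Finset.mem_insert_self _ _)))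
    · intro k hk
      by_cases hki : k = i
      · subst hki
        rw [Function.update_self, hb]
      · rw [Function.update_of_ne hki]
        exact h1 k fun h4 => by
          rcases Finset.mem_insert.1 h4 with h5 | h5
          · exact hki h5
          · exact hk h5
    · intro k hk
      have hki : k ≠ i := by rintro rfl; exact hi hk
      rw [Function.update_of_ne hki]
      exact h2 k (Finset.mem_insert_of_mem hk)
    · exact fun k hk => h3 k (Finset.mem_insert_of_mem hk)

end

section prob

variable {N : ℕ}

theorem pr_alive (j : Fin N) :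
    pr (fun z : Fin N × Bool => (if z.1 = j then none else some z.2) = (none : Option Bool)) =
      1 / N := by
  classical
  have hN : 0 < N := lt_of_le_of_lt (Nat.zero_le _) j.2
  have h1 : (Finset.univ.filter fun z : Fin N × Bool =>
      (if z.1 = j then none else some z.2) = (none : Option Bool)) =
      ({j} : Finset (Fin N)) ×ˢ (Finset.univ : Finset Bool) := by
    ext z
    simp only [Finset.mem_filter, Finset.mem_univ, true_and, Finset.mem_product,
      Finset.mem_singleton, and_true]
    by_cases h : z.1 = j <;> simp [h]
  unfold pr av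
  have h2 : (∑ z : Fin N × Bool, @ite ℝ ((if z.1 = j then none else some z.2) =
      (none : Option Bool)) (Classical.propDecidable _) 1 0) = 2 := by
    calc _ = ∑ z : Fin N × Bool, if (if z.1 = j then none else some z.2) =
          (none : Option Bool) then (1 : ℝ) else 0 := Finset.sum_congr rfl fun z _ => by congr
      _ = _ := by
        rw [← Finset.sum_filter, h1, Finset.sum_const, Finset.card_product,
          Finset.card_singleton, Finset.card_univ, Fintype.card_bool]
        norm_num
  rw [h2, Fintype.card_prod, Fintype.card_fin, Fintype.card_bool]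
  push_cast
  field_simp

theorem pr_value (j : Fin N) (b : Bool) :
    pr (fun z : Fin N × Bool => (if z.1 = j then none else some z.2) = some b) =
      (N - 1) / (2 * N) := by
  classical
  have hN : 0 < N := lt_of_le_of_lt (Nat.zero_le _) j.2
  have h1 : (Finset.univ.filter fun z : Fin N × Bool =>
      (if z.1 = j then none else some z.2) = some b) =
      (Finset.univ.erase j : Finset (Fin N)) ×ˢ ({b} : Finset Bool) := by
    ext z
    simp only [Finset.mem_filter, Finset.mem_univ, true_and, Finset.mem_product,
      Finset.mem_singleton, Finset.mem_erase, and_true]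
    by_cases h : z.1 = j <;> simp [h]
  unfold pr av
  have h2 : (∑ z : Fin N × Bool, @ite ℝ ((if z.1 = j then none else some z.2) =
      some b) (Classical.propDecidable _) 1 0) = N - 1 := by
    calc _ = ∑ z : Fin N × Bool, if (if z.1 = j then none else some z.2) =
          some b then (1 : ℝ) else 0 := Finset.sum_congr rfl fun z _ => by congr
      _ = _ := by
        rw [← Finset.sum_filter, h1, Finset.sum_const, Finset.card_product,
          Finset.card_singleton, Finset.card_erase_of_mem (Finset.mem_univ _), Finset.card_univ,
          Fintype.card_fin, nsmul_eq_mul, mul_one, mul_one, Nat.cast_sub hN]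
        norm_num
  rw [h2, Fintype.card_prod, Fintype.card_fin, Fintype.card_bool]
  push_cast
  rw [mul_comm (N : ℝ) 2]

theorem pr_split {Ω : Type} [Fintype Ω] (s t : Ω → Prop) :
    pr (fun ω => s ω ∧ t ω) + pr (fun ω => s ω ∧ ¬ t ω) = pr s := by
  unfold pr
  rw [← av_add]
  refine av_congr fun ω => ?_
  by_cases h1 : s ω <;> by_cases h2 : t ω <;> simp [h1, h2]

variable {V Y : Type} [Fintype V] [DecidableEq V]

/-- The pattern event. -/
def Pat (j : Fin N) (U J : Finset V) (a : V → Bool) (ω : V → Fin N × Bool) : Prop :=
  ∀ i ∈ U, rho j ω i = if i ∈ J then none else some (a i)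

theorem pr_pat (hN : 2 ≤ N) (j : Fin N) (U J : Finset V) (hJ : J ⊆ U) (a : V → Bool) :
    pr (Pat j U J a) = (2 / ((N : ℝ) - 1)) ^ J.card * pr (Pat j U ∅ a) := by
  have hN' : (2 : ℝ) ≤ N := by exact_mod_cast hN
  have hne : Nonempty (Fin N × Bool) := ⟨(j, true)⟩
  have h1 : ∀ J : Finset V, pr (Pat j U J a) = ∏ i ∈ U,
      pr (fun z : Fin N × Bool => (if z.1 = j then none else some z.2) =
        if i ∈ J then none else some (a i)) := by
    intro J
    rw [← pr_forall_mem U fun i (z : Fin N × Bool) => (if z.1 = j then none else some z.2) =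
      if i ∈ J then none else some (a i)]
    rfl
  rw [h1 J, h1 ∅]
  have h2 : ∀ i ∈ U, pr (fun z : Fin N × Bool => (if z.1 = j then none else some z.2) =
        if i ∈ J then none else some (a i)) =
      (if i ∈ J then 2 / ((N : ℝ) - 1) else 1) *
      pr (fun z : Fin N × Bool => (if z.1 = j then none else some z.2) =
        if i ∈ (∅ : Finset V) then none else some (a i)) := by
    intro i _
    by_cases hi : i ∈ J
    · simp only [hi, if_true, Finset.notMem_empty, if_false]
      rw [pr_alive, pr_value]
      have h3 : (N : ℝ) - 1 ≠ 0 := by linarith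
      field_simp
    · simp only [hi, if_false, Finset.notMem_empty, one_mul]
  rw [Finset.prod_congr rfl h2, Finset.prod_mul_distrib]
  congr 1
  rw [Finset.prod_ite, Finset.prod_const_one, mul_one, Finset.prod_const]
  congr 2
  ext i
  simp only [Finset.mem_filter]
  exact ⟨fun h => h.2, fun h => ⟨hJ h, h⟩⟩

/-- The numerical condition. -/
theorem pow_le_two {w : ℕ} (hN : 16 * w ≤ N) (hw : 1 ≤ w) :
    (1 + 2 * (2 / ((N : ℝ) - 1)) / (1 / 2)) ^ w ≤ 2 := by
  have hN' : (16 : ℝ) * w ≤ N := by exact_mod_cast hN
  have hw' : (1 : ℝ) ≤ w := by exact_mod_cast hw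
  have h1 : (15 : ℝ) * w ≤ (N : ℝ) - 1 := by linarith
  have h2 : 2 * (2 / ((N : ℝ) - 1)) / (1 / 2) ≤ 8 / (15 * w) := by
    have h3 : 2 * (2 / ((N : ℝ) - 1)) / (1 / 2) = 8 / ((N : ℝ) - 1) := by ring
    rw [h3]
    apply div_le_div_of_nonneg_left (by norm_num) (by positivity) h1
  have h3 : (0 : ℝ) < (N : ℝ) - 1 := by linarith
  calc (1 + 2 * (2 / ((N : ℝ) - 1)) / (1 / 2)) ^ w ≤ (1 + 8 / (15 * w)) ^ w := by
        apply pow_le_pow_left₀ (by positivity)
        linarith
    _ ≤ (Real.exp (8 / (15 * w))) ^ w := by
        apply pow_le_pow_left₀ (by positivity)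
        have := Real.add_one_le_exp (8 / (15 * (w : ℝ)))
        linarith
    _ = Real.exp (8 / 15) := by
        rw [← Real.exp_nat_mul]
        congr 1
        field_simp
    _ ≤ Real.exp (Real.log 2) := by
        apply Real.exp_le_exp.2
        have := Real.log_two_gt_d9
        linarith
    _ = 2 := Real.exp_log (by norm_num)

theorem switch_aux {w : ℕ} (j : Fin N) (hN : 2 ≤ N) {α : ℝ} (hα0 : 0 < α) (hα1 : α ≤ 1)
    (hw : (1 + 2 * (2 / ((N : ℝ) - 1)) / α) ^ w ≤ 2) (m : ℕ) :
    ∀ L : List (Item V Y), L.length ≤ m → (∀ x ∈ L, x.1.1.card ≤ w) → ∀ (y0 : Y) (s : ℕ)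
      (E : (V → Option Bool) → Prop), Refine E →
      pr (fun ω : V → Fin N × Bool => E (rho j ω) ∧ ¬ Dlt s (restr ω j (evalL L y0))) ≤
        α ^ s * pr (fun ω : V → Fin N × Bool => E (rho j ω)) := by
  classical
  have hne : Nonempty (Fin N × Bool) := ⟨(j, true)⟩
  have hN' : (2 : ℝ) ≤ N := by exact_mod_cast hN
  obtain ⟨β, hβ⟩ : ∃ β : ℝ, β = 2 / ((N : ℝ) - 1) := ⟨_, rfl⟩
  have hβ0 : 0 ≤ β := by
    rw [hβ]
    apply div_nonneg (by norm_num)
    linarith
  rw [← hβ] at hw
  have hzero : ∀ (L : List (Item V Y)) (y0 : Y) (E : (V → Option Bool) → Prop),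
      pr (fun ω : V → Fin N × Bool => E (rho j ω) ∧ ¬ Dlt 0 (restr ω j (evalL L y0))) ≤
        α ^ 0 * pr (fun ω : V → Fin N × Bool => E (rho j ω)) := by
    intro L y0 E
    rw [pow_zero, one_mul]
    exact pr_mono fun ω h => h.1
  have hnil : ∀ (y0 : Y) (s : ℕ) (E : (V → Option Bool) → Prop),
      pr (fun ω : V → Fin N × Bool => E (rho j ω) ∧ ¬ Dlt s (restr ω j (evalL [] y0))) ≤
        α ^ s * pr (fun ω : V → Fin N × Bool => E (rho j ω)) := by
    intro y0 s E
    cases s with
    | zero => exact hzero _ _ _
    | succ s =>
      rw [pr_eq_zero]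
      · exact mul_nonneg (pow_nonneg hα0.le _) (pr_nonneg _)
      · rintro ω ⟨-, h⟩
        exact h (Dlt.of_const (by omega) fun σ τ => rfl)
  induction m with
  | zero =>
    intro L hL _ y0 s E _
    have : L = [] := List.length_eq_zero_iff.1 (Nat.le_zero.1 hL)
    subst this
    exact hnil y0 s E
  | succ m ih =>
    intro L hL hwL y0 s E hE
    cases L with
    | nil => exact hnil y0 s E
    | cons x L =>
    rcases Nat.eq_zero_or_pos s with hs | hs
    · subst hs
      exact hzero _ _ _
    obtain ⟨⟨U, a⟩, v⟩ := x
    have hUw : U.card ≤ w := hwL _ List.mem_cons_self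
    have hL' : L.length ≤ m := by
      rw [List.length_cons] at hL
      omega
    have hwL' : ∀ x ∈ L, x.1.1.card ≤ w := fun x hx => hwL x (List.mem_cons_of_mem _ hx)
    obtain ⟨K, hK⟩ : ∃ K : (V → Option Bool) → Prop, K = fun ρ => ∃ i ∈ U, ρ i = some (!a i) :=
      ⟨_, rfl⟩
    have hEK : Refine fun ρ => E ρ ∧ K ρ := by
      rintro ρ i b ⟨h1, h2⟩ h3
      refine ⟨hE ρ i b h1 h3, ?_⟩
      rw [hK] at h2 ⊢
      obtain ⟨k, hk, h4⟩ := h2
      refine ⟨k, hk, ?_⟩
      have hki : k ≠ i := by
        rintro rfl
        rw [h3] at h4
        exact absurd h4 (by simp)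
      rw [Function.update_of_ne hki]
      exact h4
    -- the falsified case
    have hcase1 : pr (fun ω : V → Fin N × Bool => (E (rho j ω) ∧
        ¬ Dlt s (restr ω j (evalL (((U, a), v) :: L) y0))) ∧ K (rho j ω)) ≤
        α ^ s * pr (fun ω : V → Fin N × Bool => E (rho j ω) ∧ K (rho j ω)) := by
      refine le_trans (pr_mono fun ω hω => ?_) (ih L hL' hwL' y0 s (fun ρ => E ρ ∧ K ρ) hEK)
      obtain ⟨⟨h1, h2⟩, h3⟩ := hω
      refine ⟨⟨h1, h3⟩, ?_⟩
      have h4 : restr ω j (evalL (((U, a), v) :: L) y0) = restr ω j (evalL L y0) := by
        funext σ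
        unfold restr
        apply evalL_neg
        rw [hK] at h3
        obtain ⟨i, hi, h5⟩ := h3
        intro h6
        have h7 : (if (ω i).1 = j then σ i else (ω i).2) = a i := h6 i hi
        unfold rho at h5
        by_cases h8 : (ω i).1 = j
        · rw [if_pos h8] at h5
          exact absurd h5 (by simp)
        · rw [if_neg h8] at h5
          rw [if_neg h8] at h7
          have h9 := Option.some_injective _ h5
          rw [h7] at h9
          simp at h9
      rw [h4] at h2
      exact h2
    -- the event for a set of alive coordinates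
    let E' : Finset V → (V → Option Bool) → Prop := fun J ρ =>
      E fun i => if i ∈ U then (if i ∈ J then none else some (a i)) else ρ i
    have hE' : ∀ J, Refine (E' J) := by
      intro J ρ i b h1 h2
      by_cases hi : i ∈ U
      · have h3 : (fun k => if k ∈ U then (if k ∈ J then none else some (a k)) else
            Function.update ρ i (some b) k) =
            fun k => if k ∈ U then (if k ∈ J then none else some (a k)) else ρ k := by
          funext k
          by_cases hk : k ∈ U
          · simp [hk]
          · have : k ≠ i := by rintro rfl; exact hk hi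
            simp [hk, this]
        show E fun k => if k ∈ U then (if k ∈ J then none else some (a k)) else
            Function.update ρ i (some b) k
        rw [h3]
        exact h1
      · have h3 : (fun k => if k ∈ U then (if k ∈ J then none else some (a k)) else
            Function.update ρ i (some b) k) =
            Function.update (fun k => if k ∈ U then (if k ∈ J then none else some (a k))
              else ρ k) i (some b) := by
          funext k
          by_cases hki : k = i
          · subst hki
            simp [hi]
          · simp [hki]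
        show E fun k => if k ∈ U then (if k ∈ J then none else some (a k)) else
            Function.update ρ i (some b) k
        rw [h3]
        refine hE _ i b h1 ?_
        simp [hi, h2]
    let Lf : Finset V → Finset V → List (Item V Y) := fun J T =>
      fixL U (mix J (fun i => decide (i ∈ T)) a) L
    -- the fixed coordinates do not matter
    have hindep : ∀ (J T : Finset V) (ω ω' : V → Fin N × Bool), (∀ i, i ∉ U → ω i = ω' i) →
        ((E' J (rho j ω) ∧ ¬ Dlt (s - J.card) (restr ω j (evalL (Lf J T) y0))) ↔
        (E' J (rho j ω') ∧ ¬ Dlt (s - J.card) (restr ω' j (evalL (Lf J T) y0)))) := by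
      intro J T ω ω' h
      have h1 : (fun i => if i ∈ U then (if i ∈ J then none else some (a i)) else rho j ω i) =
          fun i => if i ∈ U then (if i ∈ J then none else some (a i)) else rho j ω' i := by
        funext i
        by_cases hi : i ∈ U
        · simp [hi]
        · simp only [hi, if_false]
          unfold rho
          rw [h i hi]
      have h2 : restr ω j (evalL (Lf J T) y0) = restr ω' j (evalL (Lf J T) y0) := by
        funext σ
        unfold restr
        simp only [Lf]
        rw [evalL_fixL, evalL_fixL]
        congr 1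
        funext i
        unfold mix
        by_cases hi : i ∈ U
        · simp [hi]
        · simp only [hi, if_false]
          rw [h i hi]
      show (E _ ∧ _) ↔ (E _ ∧ _)
      rw [h1, h2]
    have hpat : ∀ (J : Finset V) (ω ω' : V → Fin N × Bool), (∀ i ∈ U, ω i = ω' i) →
        (Pat j U J a ω ↔ Pat j U J a ω') := by
      intro J ω ω' h
      unfold Pat rho
      refine forall₂_congr fun i hi => ?_
      rw [h i hi]
    -- one pattern
    have hone : ∀ J ∈ U.powerset.erase ∅, ∀ T : Finset V,
        pr (fun ω : V → Fin N × Bool => Pat j U J a ω ∧ (E' J (rho j ω) ∧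
          ¬ Dlt (s - J.card) (restr ω j (evalL (Lf J T) y0)))) ≤
        α ^ s * ((β / α) ^ J.card * pr (fun ω : V → Fin N × Bool =>
          E (rho j ω) ∧ ¬ K (rho j ω))) := by
      intro J hJ T
      have hJU : J ⊆ U := Finset.mem_powerset.1 (Finset.mem_of_mem_erase hJ)
      rw [pr_and_of_disjoint U (hpat J) (hindep J T)]
      have h1 := ih (Lf J T) ((fixL_length _ _ _).trans hL') (fixL_width _ _ _ hwL') y0
        (s - J.card) (E' J) (hE' J)
      have h2 : pr (fun ω : V → Fin N × Bool => E' J (rho j ω)) ≤
          pr (fun ω : V → Fin N × Bool => E' ∅ (rho j ω)) := by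
        refine pr_mono fun ω hω => ?_
        refine hE.of_le J _ _ ?_ ?_ ?_ hω
        · intro i hi
          by_cases hiU : i ∈ U <;> simp [hiU, hi]
        · intro i hi
          simp [hJU hi, hi]
        · intro i hi
          simp [hJU hi]
      have h3 := pr_pat hN j U J hJU a
      rw [← hβ] at h3
      have h4 : pr (Pat j U ∅ a) * pr (fun ω : V → Fin N × Bool => E' ∅ (rho j ω)) ≤
          pr (fun ω : V → Fin N × Bool => E (rho j ω) ∧ ¬ K (rho j ω)) := by
        rw [← pr_and_of_disjoint U (hpat ∅) (t := fun ω : V → Fin N × Bool => E' ∅ (rho j ω))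
          (fun ω ω' h => by
            have h1 : (fun i => if i ∈ U then (if i ∈ (∅ : Finset V) then none
                else some (a i)) else rho j ω i) =
                fun i => if i ∈ U then (if i ∈ (∅ : Finset V) then none else some (a i))
                  else rho j ω' i := by
              funext i
              by_cases hi : i ∈ U
              · simp [hi]
              · simp only [hi, if_false]
                unfold rho
                rw [h i hi]
            show E _ ↔ E _
            rw [h1])]
        refine pr_mono fun ω hω => ?_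
        obtain ⟨h5, h6⟩ := hω
        constructor
        · have h7 : (fun i => if i ∈ U then (if i ∈ (∅ : Finset V) then none
              else some (a i)) else rho j ω i) = rho j ω := by
            funext i
            by_cases hi : i ∈ U
            · rw [if_pos hi]
              exact (h5 i hi).symm
            · rw [if_neg hi]
          have h8 : E fun i => if i ∈ U then (if i ∈ (∅ : Finset V) then none
              else some (a i)) else rho j ω i := h6
          rw [h7] at h8
          exact h8
        · rw [hK]
          rintro ⟨i, hi, h7⟩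
          have h8 := h5 i hi
          rw [h7] at h8
          simp at h8
      have h5 : α ^ (s - J.card) ≤ α ^ s / α ^ J.card := by
        rw [le_div_iff₀ (pow_pos hα0 _), ← pow_add]
        exact pow_le_pow_of_le_one hα0.le hα1 (by omega)
      calc pr (Pat j U J a) * pr (fun ω : V → Fin N × Bool => E' J (rho j ω) ∧
            ¬ Dlt (s - J.card) (restr ω j (evalL (Lf J T) y0)))
          ≤ (β ^ J.card * pr (Pat j U ∅ a)) * ((α ^ s / α ^ J.card) *
            pr (fun ω : V → Fin N × Bool => E' ∅ (rho j ω))) := by
            rw [h3]
            apply mul_le_mul_of_nonneg_left _ (mul_nonneg (pow_nonneg hβ0 _) (pr_nonneg _))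
            refine h1.trans ?_
            exact mul_le_mul h5 h2 (pr_nonneg _)
              (div_nonneg (pow_nonneg hα0.le _) (pow_nonneg hα0.le _))
        _ = α ^ s * ((β / α) ^ J.card * (pr (Pat j U ∅ a) *
            pr (fun ω : V → Fin N × Bool => E' ∅ (rho j ω)))) := by
            rw [div_pow]
            ring
        _ ≤ _ := by
            apply mul_le_mul_of_nonneg_left _ (pow_nonneg hα0.le _)
            exact mul_le_mul_of_nonneg_left h4 (pow_nonneg (div_nonneg hβ0 hα0.le) _)
    -- the decomposition
    have hcase2 : pr (fun ω : V → Fin N × Bool => (E (rho j ω) ∧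
        ¬ Dlt s (restr ω j (evalL (((U, a), v) :: L) y0))) ∧ ¬ K (rho j ω)) ≤
        α ^ s * pr (fun ω : V → Fin N × Bool => E (rho j ω) ∧ ¬ K (rho j ω)) := by
      have hcover : ∀ ω : V → Fin N × Bool, (E (rho j ω) ∧
          ¬ Dlt s (restr ω j (evalL (((U, a), v) :: L) y0))) ∧ ¬ K (rho j ω) →
          ∃ J ∈ U.powerset.erase ∅, ∃ T ∈ J.powerset, Pat j U J a ω ∧ (E' J (rho j ω) ∧
          ¬ Dlt (s - J.card) (restr ω j (evalL (Lf J T) y0))) := by
        rintro ω ⟨⟨h1, h2⟩, h3⟩
        obtain ⟨J, hJ⟩ : ∃ J : Finset V, J = U.filter fun i => (ω i).1 = j := ⟨_, rfl⟩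
        have hJU : J ⊆ U := by rw [hJ]; exact Finset.filter_subset _ _
        have hJmem : ∀ i ∈ U, (i ∈ J ↔ (ω i).1 = j) := by
          intro i hi
          rw [hJ, Finset.mem_filter]
          exact ⟨fun h => h.2, fun h => ⟨hi, h⟩⟩
        have hfix : ∀ i ∈ U, i ∉ J → (ω i).2 = a i := by
          intro i hi hiJ
          by_contra h4
          apply h3
          rw [hK]
          refine ⟨i, hi, ?_⟩
          unfold rho
          rw [if_neg fun h => hiJ ((hJmem i hi).2 h)]
          congr 1
          revert h4
          cases (ω i).2 <;> cases a i <;> simp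
        have hPat : Pat j U J a ω := by
          intro i hi
          unfold rho
          by_cases hiJ : i ∈ J
          · rw [if_pos ((hJmem i hi).1 hiJ), if_pos hiJ]
          · rw [if_neg fun h => hiJ ((hJmem i hi).2 h), if_neg hiJ, hfix i hi hiJ]
        have hEJ : E' J (rho j ω) := by
          have h4 : (fun i => if i ∈ U then (if i ∈ J then none else some (a i)) else
              rho j ω i) = rho j ω := by
            funext i
            by_cases hi : i ∈ U
            · rw [if_pos hi]
              exact (hPat i hi).symm
            · rw [if_neg hi]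
          show E fun i => if i ∈ U then (if i ∈ J then none else some (a i)) else rho j ω i
          rw [h4]
          exact h1
        by_contra hcon
        push Not at hcon
        apply h2
        by_cases hJe : J = ∅
        · -- the first term is satisfied
          apply Dlt.of_const hs
          have h4 : ∀ σ : V → Bool, restr ω j (evalL (((U, a), v) :: L) y0) σ = v := by
            intro σ
            unfold restr
            apply evalL_pos
            intro i hi
            have h5 : i ∉ J := by rw [hJe]; exact Finset.notMem_empty i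
            show (if (ω i).1 = j then σ i else (ω i).2) = a i
            rw [if_neg fun h => h5 ((hJmem i hi).2 h)]
            exact hfix i hi h5
          intro σ τ
          rw [h4, h4]
        · have hJmem' : J ∈ U.powerset.erase ∅ :=
            Finset.mem_erase.2 ⟨hJe, Finset.mem_powerset.2 hJU⟩
          have hall : ∀ T ∈ J.powerset, Dlt (s - J.card) (restr ω j (evalL (Lf J T) y0)) := by
            intro T hT
            exact hcon J hJmem' T hT hPat hEJ
          obtain ⟨t, ht⟩ : ∃ t, s - J.card = t + 1 := by
            cases h : s - J.card with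
            | zero =>
              have h4 := hall ∅ (Finset.empty_mem_powerset J)
              rw [h] at h4
              exact absurd h4 id
            | succ t => exact ⟨t, rfl⟩
          have hs' : s = (t + J.card) + 1 := by omega
          rw [hs']
          show Dt (t + J.card) _
          apply Dt.query J
          intro τ
          by_cases hsat : ∀ i ∈ J, τ i = a i
          · apply Dt.of_const
            have h4 : ∀ σ : V → Bool,
                restr ω j (evalL (((U, a), v) :: L) y0) (mix J τ σ) = v := by
              intro σ
              unfold restr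
              apply evalL_pos
              intro i hi
              show (if (ω i).1 = j then mix J τ σ i else (ω i).2) = a i
              by_cases hiJ : i ∈ J
              · rw [if_pos ((hJmem i hi).1 hiJ)]
                unfold mix
                rw [if_pos hiJ]
                exact hsat i hiJ
              · rw [if_neg fun h => hiJ ((hJmem i hi).2 h)]
                exact hfix i hi hiJ
            intro σ σ'
            show restr ω j (evalL (((U, a), v) :: L) y0) (mix J τ σ) =
              restr ω j (evalL (((U, a), v) :: L) y0) (mix J τ σ')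
            rw [h4, h4]
          · have hT := hall (J.filter fun i => τ i = true)
              (Finset.mem_powerset.2 (Finset.filter_subset _ _))
            rw [ht] at hT
            have hT' : Dt t (restr ω j (evalL (Lf J (J.filter fun i => τ i = true)) y0)) := hT
            refine (congrArg (Dt t) ?_).mp hT'
            funext σ
            unfold restr
            simp only [Lf]
            rw [evalL_fixL, evalL_neg (x := ((U, a), v))]
            · congr 1
              funext i
              unfold mix
              by_cases hiU : i ∈ U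
              · by_cases hiJ : i ∈ J
                · simp only [hiU, hiJ, if_true, (hJmem i hiU).1 hiJ, Finset.mem_filter, true_and]
                  cases τ i <;> simp
                · have h5 : ¬ (ω i).1 = j := fun h => hiJ ((hJmem i hiU).2 h)
                  simp only [hiU, hiJ, if_true, if_false, h5]
                  exact (hfix i hiU hiJ).symm
              · have hiJ : i ∉ J := fun h => hiU (hJU h)
                simp only [hiU, hiJ, if_false]
            · intro h5
              apply hsat
              intro i hi
              have h6 := h5 i (hJU hi)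
              have h7 : (if (ω i).1 = j then mix J τ σ i else (ω i).2) = a i := h6
              rw [if_pos ((hJmem i (hJU hi)).1 hi)] at h7
              unfold mix at h7
              rwa [if_pos hi] at h7
      refine (pr_mono hcover).trans ?_
      refine (pr_exists_le _ _).trans ?_
      have h1 : ∀ J ∈ U.powerset.erase ∅, pr (fun ω : V → Fin N × Bool =>
          ∃ T ∈ J.powerset, Pat j U J a ω ∧ (E' J (rho j ω) ∧
          ¬ Dlt (s - J.card) (restr ω j (evalL (Lf J T) y0)))) ≤
          (2 * β / α) ^ J.card * (α ^ s * pr (fun ω : V → Fin N × Bool =>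
            E (rho j ω) ∧ ¬ K (rho j ω))) := by
        intro J hJ
        refine (pr_exists_le _ _).trans ((Finset.sum_le_sum fun T _ => hone J hJ T).trans
          (le_of_eq ?_))
        rw [Finset.sum_const, Finset.card_powerset, nsmul_eq_mul]
        push_cast
        rw [mul_div_assoc, mul_pow]
        ring
      refine (Finset.sum_le_sum h1).trans ?_
      rw [← Finset.sum_mul]
      have h2 : ∑ J ∈ U.powerset.erase ∅, (2 * β / α) ^ J.card ≤ 1 := by
        have h3 := Finset.sum_pow_mul_eq_add_pow (2 * β / α) 1 U
        simp only [one_pow, mul_one] at h3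
        have h4 : ∑ J ∈ U.powerset.erase ∅, (2 * β / α) ^ J.card +
            (2 * β / α) ^ (∅ : Finset V).card = ∑ J ∈ U.powerset, (2 * β / α) ^ J.card :=
          Finset.sum_erase_add _ _ (Finset.empty_mem_powerset U)
        rw [h3, Finset.card_empty, pow_zero] at h4
        have h5 : (2 * β / α + 1) ^ U.card ≤ 2 := by
          have h6 : (1 : ℝ) ≤ 1 + 2 * β / α := by
            have : 0 ≤ 2 * β / α := by positivity
            linarith
          calc (2 * β / α + 1) ^ U.card = (1 + 2 * β / α) ^ U.card := by rw [add_comm]
            _ ≤ (1 + 2 * β / α) ^ w := pow_le_pow_right₀ h6 hUw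
            _ ≤ 2 := hw
        linarith
      have h3 : 0 ≤ α ^ s * pr (fun ω : V → Fin N × Bool => E (rho j ω) ∧ ¬ K (rho j ω)) :=
        mul_nonneg (pow_nonneg hα0.le _) (pr_nonneg _)
      calc _ ≤ 1 * (α ^ s * pr (fun ω : V → Fin N × Bool => E (rho j ω) ∧ ¬ K (rho j ω))) :=
            mul_le_mul_of_nonneg_right h2 h3
        _ = _ := one_mul _
    have hsum := add_le_add hcase1 hcase2
    rw [pr_split, ← mul_add, pr_split (fun ω : V → Fin N × Bool => E (rho j ω))] at hsum
    exact hsum

/-- **The switching lemma.** -/
theorem switch {w s : ℕ} (hN : 16 * w ≤ N) (hw : 1 ≤ w) (j : Fin N) (L : List (Item V Y))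
    (hL : ∀ x ∈ L, x.1.1.card ≤ w) (y0 : Y) :
    pr (fun ω : V → Fin N × Bool => ¬ Dt s (restr ω j (evalL L y0))) ≤ (1 / 2) ^ s := by
  have hN2 : 2 ≤ N := by omega
  have hne : Nonempty (Fin N × Bool) := ⟨(j, true)⟩
  have h1 := switch_aux (V := V) j hN2 (α := 1 / 2) (by norm_num) (by norm_num)
    (pow_le_two hN hw) L.length L le_rfl hL y0 (s + 1) (fun _ => True) (fun _ _ _ _ _ => trivial)
  have h2 : pr (fun ω : V → Fin N × Bool => ¬ Dt s (restr ω j (evalL L y0))) ≤
      pr (fun ω : V → Fin N × Bool => True ∧ ¬ Dlt (s + 1) (restr ω j (evalL L y0))) :=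
    pr_mono fun ω h => ⟨trivial, h⟩
  have h3 : pr (fun ω : V → Fin N × Bool => True) ≤ 1 := pr_le_one _
  calc _ ≤ _ := h2
    _ ≤ _ := h1
    _ ≤ (1 / 2) ^ (s + 1) * 1 := mul_le_mul_of_nonneg_left h3 (by positivity)
    _ ≤ (1 / 2) ^ s := by
        rw [mul_one]
        exact pow_le_pow_of_le_one (by norm_num) (by norm_num) (Nat.le_succ s)

end prob

end Pool.Agent.H58.OVT
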