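import Pool.Agent.H58.OVT.Switch
import Pool.Agent.H58.OVPR.Run

/-! Sensitivity of runs with many rounds. -/

set_option autoImplicit false
set_option maxHeartbeats 4000000

namespace Pool.Agent.H58.OVT

open Pool.Agent.H58.OVAC Pool.Agent.H58.OVPR

section

variable {p : ℕ} {Cell St Wd Ω : Type} [DecidableEq Cell]

/-- The machine writes only in every `r`-th step. -/
def Quiet (r : ℕ) (R : Run p Cell St Wd Ω) : Prop :=
  ∀ τ, ¬ r ∣ τ + 1 → ∀ P s, R.write τ P s = none

/-- Start `r` steps later. -/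
def shiftBy (r : ℕ) (R : Run p Cell St Wd Ω) : Run p Cell St Wd Ω where
  st τ := R.st (r + τ)
  ct τ := R.ct (r + τ)
  read τ := R.read (r + τ)
  next τ := R.next (r + τ)
  write τ := R.write (r + τ)
  hst τ P x := R.hst (r + τ) P x
  hct τ c x := R.hct (r + τ) c x

theorem Quiet.shiftBy {r : ℕ} {R : Run p Cell St Wd Ω} (h : Quiet r R) :
    Quiet r (shiftBy r R) := by
  intro τ hτ P s
  refine h (r + τ) ?_ P s
  intro h1
  apply hτ
  rw [Nat.add_assoc] at h1
  exact (Nat.dvd_add_right (dvd_refl r)).1 h1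

theorem Quiet.ct_eq {r : ℕ} {R : Run p Cell St Wd Ω} (h : Quiet r R) (τ : ℕ)
    (hτ : ¬ r ∣ τ + 1) (c : Cell) (x : Ω) : R.ct (τ + 1) c x = R.ct τ c x := by
  rcases R.hct τ c x with ⟨-, h1⟩ | ⟨k, -, h1⟩
  · exact h1
  · rw [h τ hτ] at h1
    exact absurd h1 (by simp [item])

theorem Quiet.ct_zero {r : ℕ} {R : Run p Cell St Wd Ω} (h : Quiet r R) (c : Cell) (x : Ω) :
    ∀ τ < r, R.ct τ c x = R.ct 0 c x := by
  intro τ
  induction τ with
  | zero => intro _; rfl
  | succ τ ih =>
    intro hτ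
    rw [h.ct_eq τ (Nat.not_dvd_of_pos_of_lt (Nat.succ_pos τ) hτ) c x]
    exact ih (by omega)

end

section

variable {V : Type} [DecidableEq V] {p : ℕ} {Cell St Wd : Type} [DecidableEq Cell]

theorem dt_st {r s : ℕ} {R : Run p Cell St Wd (V → Bool)} (h : Quiet r R)
    (hs : ∀ P, Dt s (R.st 0 P)) (hc : ∀ c, Dt s (R.ct 0 c)) :
    ∀ τ ≤ r, ∀ P, Dt ((τ + 1) * s) (R.st τ P) := by
  intro τ
  induction τ with
  | zero =>
    intro _ P
    rw [zero_add, one_mul]
    exact hs P
  | succ τ ih =>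
    intro hτ P
    have h1 := ih (by omega) P
    have h2 : R.st (τ + 1) P = fun σ => (fun (y : St) (σ' : V → Bool) =>
        R.next τ P y (R.ct 0 (R.read τ P y) σ')) (R.st τ P σ) σ := by
      funext σ
      rw [R.hst τ P σ, h.ct_zero _ σ τ (by omega)]
    rw [h2, Nat.succ_mul (τ + 1) s]
    exact h1.bind (G := fun (y : St) (σ' : V → Bool) => R.next τ P y (R.ct 0 (R.read τ P y) σ'))
      fun y => (hc _).comp _

theorem dt_ct {r s : ℕ} (hr : 1 ≤ r) {R : Run p Cell St Wd (V → Bool)} (h : Quiet r R)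
    (hs : ∀ P, Dt s (R.st 0 P)) (hc : ∀ c, Dt s (R.ct 0 c)) (c : Cell) :
    ∃ L : List (Item V Wd), (∀ x ∈ L, x.1.1.card ≤ (r + 1) * s) ∧
      ∀ y0 : Wd, evalL L y0 = R.ct r c := by
  obtain ⟨r', rfl⟩ : ∃ r', r = r' + 1 := ⟨r - 1, by omega⟩
  refine exists_list (fun k σ => item (R.write r' k (R.st (r' + 1) k σ)) c)
    (fun k => (dt_st h hs hc (r' + 1) le_rfl k).comp fun s => item (R.write r' k s) c)
    (R.ct r' c) ?_ (R.ct (r' + 1) c) fun σ => R.hct r' c σ
  have h1 : R.ct r' c = R.ct 0 c := by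
    funext σ
    exact h.ct_zero c σ r' (by omega)
  rw [h1]
  refine (hc c).mono ?_
  calc s = 1 * s := (one_mul s).symm
    _ ≤ (r' + 1 + 1) * s := Nat.mul_le_mul_right _ (by omega)

end

theorem run_tail {r s N : ℕ} (hr : 1 ≤ r) (hs1 : 1 ≤ s) (hN : 16 * ((r + 1) * s) ≤ N) (T : ℕ) :
    ∀ (V : Type) [Fintype V] [DecidableEq V] (p : ℕ) (Cell St Wd : Type) [Fintype Cell]
    [DecidableEq Cell] (R : Run p Cell St Wd (V → Bool)), Quiet r R →
    (∀ P, Dt s (R.st 0 P)) → (∀ c, Dt s (R.ct 0 c)) → ∀ G : ℕ, p + Fintype.card Cell ≤ G →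
    ∀ τ ≤ r * T,
    (∀ P, pr (fun σ : V → Bool => (r + 1) * s * N ^ T < sens (R.st τ P) σ) ≤
      T * (N : ℝ) ^ T * G / 2 ^ s) ∧
    (∀ c, pr (fun σ : V → Bool => (r + 1) * s * N ^ T < sens (R.ct τ c) σ) ≤
      T * (N : ℝ) ^ T * G / 2 ^ s) := by
  have hw1 : 1 ≤ (r + 1) * s := Nat.mul_pos (Nat.succ_pos r) hs1
  have hN2 : 2 ≤ N := by omega
  have hN1' : (1 : ℝ) ≤ N := by exact_mod_cast (by omega : 1 ≤ N)
  have hsw : s ≤ (r + 1) * s := by
    calc s = 1 * s := (one_mul s).symm
      _ ≤ (r + 1) * s := Nat.mul_le_mul_right _ (by omega)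
  induction T with
  | zero =>
    intro V _ _ p Cell St Wd _ _ R hq hs hc G _ τ hτ
    have hτ0 : τ = 0 := by simpa using hτ
    subst hτ0
    constructor
    · intro P
      rw [pr_eq_zero]
      · positivity
      · intro σ hσ
        have := sens_le_of_dt (hs P) σ
        rw [pow_zero, mul_one] at hσ
        omega
    · intro c
      rw [pr_eq_zero]
      · positivity
      · intro σ hσ
        have := sens_le_of_dt (hc c) σ
        rw [pow_zero, mul_one] at hσ
        omega
  | succ T ih =>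
    intro V _ _ p Cell St Wd _ _ R hq hs0 hc0 G hG τ hτ
    classical
    have hNe : Nonempty (Fin N) := ⟨⟨0, by omega⟩⟩
    -- one colour
    have hgood : ∀ (j : Fin N) (ω : V → Fin N × Bool),
        (¬ ∃ z ∈ (Finset.univ : Finset (Fin p ⊕ Cell)),
          Sum.elim (fun P => ¬ Dt s (restr ω j (R.st r P)))
            (fun c => ¬ Dt s (restr ω j (R.ct r c))) z) →
        ∀ τ ≤ r * T, (∀ P, pr (fun σ : V → Bool => (r + 1) * s * N ^ T <
          sens (restr ω j (R.st (r + τ) P)) σ) ≤ T * (N : ℝ) ^ T * G / 2 ^ s) ∧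
        (∀ c, pr (fun σ : V → Bool => (r + 1) * s * N ^ T <
          sens (restr ω j (R.ct (r + τ) c)) σ) ≤ T * (N : ℝ) ^ T * G / 2 ^ s) := by
      intro j ω hgood τ hτ
      push Not at hgood
      refine ih V p Cell St Wd
        ((shiftBy r R).comp fun (τ : V → Bool) (i : V) => if (ω i).1 = j then τ i else (ω i).2)
        ?_ ?_ ?_ G hG τ hτ
      · exact hq.shiftBy
      · intro P
        have h1 : ¬¬ Dt s (restr ω j (R.st r P)) := hgood (Sum.inl P) (Finset.mem_univ _)
        exact not_not.1 h1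
      · intro c
        have h1 : ¬¬ Dt s (restr ω j (R.ct r c)) := hgood (Sum.inr c) (Finset.mem_univ _)
        exact not_not.1 h1
    have hbad : ∀ j : Fin N, pr (fun ω : V → Fin N × Bool =>
        ∃ z ∈ (Finset.univ : Finset (Fin p ⊕ Cell)),
          Sum.elim (fun P => ¬ Dt s (restr ω j (R.st r P)))
            (fun c => ¬ Dt s (restr ω j (R.ct r c))) z) ≤ (G : ℝ) / 2 ^ s := by
      intro j
      refine (pr_exists_le _ _).trans ?_
      have h3 : ∀ z ∈ (Finset.univ : Finset (Fin p ⊕ Cell)),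
          pr (fun ω : V → Fin N × Bool => Sum.elim (fun P => ¬ Dt s (restr ω j (R.st r P)))
            (fun c => ¬ Dt s (restr ω j (R.ct r c))) z) ≤ (1 / 2) ^ s := by
        rintro (P | c) -
        · have h4 := dt_st hq hs0 hc0 r le_rfl P
          obtain ⟨L, hL1, hL2⟩ := exists_list (p := 0) (fun k _ => Fin.elim0 k)
            (fun k => Fin.elim0 k) (R.st r P) h4 (R.st r P)
            fun σ => Or.inl ⟨fun k => Fin.elim0 k, rfl⟩
          have h5 : ∀ y0 : St, pr (fun ω : V → Fin N × Bool =>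
              ¬ Dt s (restr ω j (R.st r P))) ≤ (1 / 2) ^ s := by
            intro y0
            have h6 := switch (s := s) hN hw1 j L hL1 y0
            rw [hL2 y0] at h6
            exact h6
          exact h5 (R.st r P fun _ => false)
        · obtain ⟨L, hL1, hL2⟩ := dt_ct hr hq hs0 hc0 c
          have h6 := switch (s := s) hN hw1 j L hL1 (R.ct r c fun _ => false)
          rw [hL2] at h6
          exact h6
      refine (Finset.sum_le_sum h3).trans ?_
      rw [Finset.sum_const, nsmul_eq_mul, Finset.card_univ, Fintype.card_sum, Fintype.card_fin,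
        one_div, inv_pow, ← div_eq_mul_inv]
      apply div_le_div_of_nonneg_right _ (by positivity)
      exact_mod_cast hG
    have hmix : ∀ {Y : Type} (u : (V → Bool) → Y),
        (∀ (j : Fin N) (ω : V → Fin N × Bool),
          (¬ ∃ z ∈ (Finset.univ : Finset (Fin p ⊕ Cell)),
            Sum.elim (fun P => ¬ Dt s (restr ω j (R.st r P)))
              (fun c => ¬ Dt s (restr ω j (R.ct r c))) z) →
          pr (fun σ : V → Bool => (r + 1) * s * N ^ T < sens (restr ω j u) σ) ≤
            T * (N : ℝ) ^ T * G / 2 ^ s) →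
        pr (fun σ : V → Bool => (r + 1) * s * N ^ (T + 1) < sens u σ) ≤
          ((T + 1 : ℕ) : ℝ) * (N : ℝ) ^ (T + 1) * G / 2 ^ s := by
      intro Y u hu
      have h1 : ∀ j : Fin N, (av fun ω : V → Fin N × Bool => pr fun σ : V → Bool =>
          (r + 1) * s * N ^ T < sens (restr ω j u) σ) ≤
          (G : ℝ) / 2 ^ s + T * (N : ℝ) ^ T * G / 2 ^ s := by
        intro j
        have hω : ∀ ω : V → Fin N × Bool, (pr fun σ : V → Bool =>
            (r + 1) * s * N ^ T < sens (restr ω j u) σ) ≤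
            (if ∃ z ∈ (Finset.univ : Finset (Fin p ⊕ Cell)),
              Sum.elim (fun P => ¬ Dt s (restr ω j (R.st r P)))
                (fun c => ¬ Dt s (restr ω j (R.ct r c))) z then (1 : ℝ) else 0) +
              T * (N : ℝ) ^ T * G / 2 ^ s := by
          intro ω
          by_cases hb : ∃ z ∈ (Finset.univ : Finset (Fin p ⊕ Cell)),
              Sum.elim (fun P => ¬ Dt s (restr ω j (R.st r P)))
                (fun c => ¬ Dt s (restr ω j (R.ct r c))) z
          · rw [if_pos hb]
            have h5 : (0 : ℝ) ≤ T * (N : ℝ) ^ T * G / 2 ^ s := by positivity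
            have h6 := pr_le_one (fun σ : V → Bool => (r + 1) * s * N ^ T <
              sens (restr ω j u) σ)
            linarith
          · rw [if_neg hb, zero_add]
            exact hu j ω hb
        refine (av_mono hω).trans ?_
        rw [av_add]
        have h8 : (av fun _ : V → Fin N × Bool => T * (N : ℝ) ^ T * G / 2 ^ s) =
            T * (N : ℝ) ^ T * G / 2 ^ s := av_const _
        rw [h8]
        have h9 := hbad j
        unfold pr at h9
        have h10 : (av fun ω : V → Fin N × Bool =>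
            @ite ℝ (∃ z ∈ (Finset.univ : Finset (Fin p ⊕ Cell)),
              Sum.elim (fun P => ¬ Dt s (restr ω j (R.st r P)))
                (fun c => ¬ Dt s (restr ω j (R.ct r c))) z) (Classical.propDecidable _) 1 0) ≤
            (G : ℝ) / 2 ^ s := h9
        refine add_le_add (le_of_eq_of_le (av_congr fun ω => ?_) h10) le_rfl
        congr
      have h2 := sens_part (by omega : 1 ≤ N) u ((r + 1) * s * N ^ T) h1
      refine le_trans (pr_mono fun σ hσ => ?_) (h2.trans ?_)
      · calc N * ((r + 1) * s * N ^ T) = (r + 1) * s * N ^ (T + 1) := by ring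
          _ < _ := hσ
      · have h3 : (1 : ℝ) ≤ (N : ℝ) ^ T := one_le_pow₀ hN1'
        have h4 : (0 : ℝ) ≤ (G : ℝ) / 2 ^ s := by positivity
        have h5 : (N : ℝ) * ((G : ℝ) / 2 ^ s + T * (N : ℝ) ^ T * G / 2 ^ s) =
            (N + T * (N : ℝ) ^ (T + 1)) * (G / 2 ^ s) := by ring
        have h6 : ((T + 1 : ℕ) : ℝ) * (N : ℝ) ^ (T + 1) * G / 2 ^ s =
            ((N : ℝ) * (N : ℝ) ^ T + T * (N : ℝ) ^ (T + 1)) * (G / 2 ^ s) := by
          push_cast
          ring
        rw [h5, h6]
        apply mul_le_mul_of_nonneg_right _ h4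
        have h7 : (N : ℝ) * 1 ≤ N * (N : ℝ) ^ T := mul_le_mul_of_nonneg_left h3 (by positivity)
        linarith
    have hzero : ∀ {Y : Type} (u : (V → Bool) → Y), Dt ((r + 1) * s) u →
        pr (fun σ : V → Bool => (r + 1) * s * N ^ (T + 1) < sens u σ) ≤
          ((T + 1 : ℕ) : ℝ) * (N : ℝ) ^ (T + 1) * G / 2 ^ s := by
      intro Y u hu
      rw [pr_eq_zero]
      · positivity
      · intro σ hσ
        have h1 := sens_le_of_dt hu σ
        have h2 : 1 ≤ N ^ (T + 1) := Nat.one_le_pow _ _ (by omega)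
        have h3 : (r + 1) * s ≤ (r + 1) * s * N ^ (T + 1) := Nat.le_mul_of_pos_right _ (by omega)
        omega
    by_cases hlt : τ < r
    · constructor
      · intro P
        refine hzero _ ((dt_st hq hs0 hc0 τ hlt.le P).mono ?_)
        exact Nat.mul_le_mul_right _ (by omega)
      · intro c
        refine hzero _ ?_
        have h1 : R.ct τ c = R.ct 0 c := by
          funext σ
          exact hq.ct_zero c σ τ hlt
        rw [h1]
        exact (hc0 c).mono hsw
    · obtain ⟨τ', rfl⟩ : ∃ τ', τ = r + τ' := ⟨τ - r, by omega⟩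
      have hτ' : τ' ≤ r * T := by
        rw [Nat.mul_succ] at hτ
        omega
      exact ⟨fun P => hmix _ fun j ω h => (hgood j ω h τ' hτ').1 P,
        fun c => hmix _ fun j ω h => (hgood j ω h τ' hτ').2 c⟩

end Pool.Agent.H58.OVT
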