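import Pool.Agent.H58.OVT.Tail
import Pool.Agent.H58.OVPR.Main

/-! Influences and exceptional inputs for runs with many rounds. -/

set_option autoImplicit false
set_option maxHeartbeats 4000000

namespace Pool.Agent.H58.OVT

open Pool.Agent.H58.OVAC Pool.Agent.H58.OVPR

theorem Quiet.comp {p r : ℕ} {Cell St Wd Ω Ω' : Type} [DecidableEq Cell]
    {R : Run p Cell St Wd Ω} (h : Quiet r R) (ρ : Ω' → Ω) : Quiet r (R.comp ρ) := h

/-- The influences of all states and contents of a run on random inputs. -/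
theorem run_infl {r s N : ℕ} (hr : 1 ≤ r) (hs1 : 1 ≤ s) (hN : 16 * ((r + 1) * s) ≤ N) (T : ℕ)
    (V X : Type) [Fintype V] [DecidableEq V] [Fintype X] [Nonempty X] (p : ℕ)
    (Cell St Wd : Type) [Fintype Cell] [DecidableEq Cell] (R : Run p Cell St Wd (V → X))
    (hq : Quiet r R) (hs : ∀ P, DepOne (R.st 0 P)) (hc : ∀ c, DepOne (R.ct 0 c)) (G : ℕ)
    (hG : p + Fintype.card Cell ≤ G) (τ : ℕ) (hτ : τ ≤ r * T) :
    (∀ P, pr (fun y : V → X => (((r + 1) * s * N ^ T : ℕ) : ℝ) + 1 < infl (R.st τ P) y) ≤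
      (Fintype.card V : ℝ) * (T * (N : ℝ) ^ T * G / 2 ^ s)) ∧
    (∀ c, pr (fun y : V → X => (((r + 1) * s * N ^ T : ℕ) : ℝ) + 1 < infl (R.ct τ c) y) ≤
      (Fintype.card V : ℝ) * (T * (N : ℝ) ^ T * G / 2 ^ s)) := by
  have h1 : ∀ y y' : V → X, _ := fun y y' => run_tail hr hs1 hN T V p Cell St Wd
    (R.comp (pick y y')) (hq.comp _)
    (fun P => (dt_of_isJunta_one ((hs P).pick y y')).mono hs1)
    (fun c => (dt_of_isJunta_one ((hc c).pick y y')).mono hs1) G hG τ hτ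
  exact ⟨fun P => infl_tail _ _ fun y y' => (h1 y y').1 P,
    fun c => infl_tail _ _ fun y y' => (h1 y y').2 c⟩

/-- The exceptional inputs are rare. -/
theorem bad_le {r s N : ℕ} (hr : 1 ≤ r) (hs1 : 1 ≤ s) (hN : 16 * ((r + 1) * s) ≤ N) (T : ℕ)
    (V X : Type) [Fintype V] [DecidableEq V] [Fintype X] [Nonempty X] (p : ℕ)
    (Cell St Wd : Type) [Fintype Cell] [DecidableEq Cell] (R : Run p Cell St Wd (V → X))
    (hq : Quiet r R) (hs : ∀ P, DepOne (R.st 0 P)) (hc : ∀ c, DepOne (R.ct 0 c)) :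
    pr (fun y : V → X => ¬ ((∀ τ ≤ r * T, ∀ P,
        infl (R.st τ P) y ≤ (((r + 1) * s * N ^ T : ℕ) : ℝ) + 1) ∧
      ∀ τ ≤ r * T, ∀ c, infl (R.ct τ c) y ≤ (((r + 1) * s * N ^ T : ℕ) : ℝ) + 1)) ≤
      ((r * T : ℕ) + 1) * (p + Fintype.card Cell) * ((Fintype.card V : ℝ) *
        (T * (N : ℝ) ^ T * (p + Fintype.card Cell : ℕ) / 2 ^ s)) := by
  have h1 := run_infl hr hs1 hN T V X p Cell St Wd R hq hs hc _ le_rfl
  set M : ℝ := (((r + 1) * s * N ^ T : ℕ) : ℝ) + 1 with hM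
  set δ : ℝ := (Fintype.card V : ℝ) * (T * (N : ℝ) ^ T * (p + Fintype.card Cell : ℕ) / 2 ^ s)
    with hδ
  have h2 : ∀ y : V → X, ¬ ((∀ τ ≤ r * T, ∀ P, infl (R.st τ P) y ≤ M) ∧
      ∀ τ ≤ r * T, ∀ c, infl (R.ct τ c) y ≤ M) →
      (∃ z ∈ Finset.range (r * T + 1) ×ˢ (Finset.univ : Finset (Fin p)),
        M < infl (R.st z.1 z.2) y) ∨
      ∃ z ∈ Finset.range (r * T + 1) ×ˢ (Finset.univ : Finset Cell),
        M < infl (R.ct z.1 z.2) y := by
    intro y hy
    by_contra hcon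
    push Not at hcon
    apply hy
    constructor
    · intro τ hτ P
      exact hcon.1 (τ, P) (Finset.mem_product.2 ⟨Finset.mem_range.2 (by omega),
        Finset.mem_univ _⟩)
    · intro τ hτ c
      exact hcon.2 (τ, c) (Finset.mem_product.2 ⟨Finset.mem_range.2 (by omega),
        Finset.mem_univ _⟩)
  refine (pr_mono h2).trans ((pr_or_le _ _).trans ?_)
  have h3 : pr (fun y : V → X => ∃ z ∈ Finset.range (r * T + 1) ×ˢ
      (Finset.univ : Finset (Fin p)), M < infl (R.st z.1 z.2) y) ≤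
      ((r * T + 1) * p : ℕ) * δ := by
    refine (pr_exists_le _ _).trans ((Finset.sum_le_sum fun z hz => (h1 z.1 (by
      have := Finset.mem_range.1 (Finset.mem_product.1 hz).1
      omega)).1 z.2).trans (le_of_eq ?_))
    rw [Finset.sum_const, Finset.card_product, Finset.card_range, Finset.card_univ,
      Fintype.card_fin, nsmul_eq_mul]
  have h4 : pr (fun y : V → X => ∃ z ∈ Finset.range (r * T + 1) ×ˢ
      (Finset.univ : Finset Cell), M < infl (R.ct z.1 z.2) y) ≤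
      ((r * T + 1) * Fintype.card Cell : ℕ) * δ := by
    refine (pr_exists_le _ _).trans ((Finset.sum_le_sum fun z hz => (h1 z.1 (by
      have := Finset.mem_range.1 (Finset.mem_product.1 hz).1
      omega)).2 z.2).trans (le_of_eq ?_))
    rw [Finset.sum_const, Finset.card_product, Finset.card_range, Finset.card_univ, nsmul_eq_mul]
  refine (add_le_add h3 h4).trans (le_of_eq ?_)
  push_cast
  ring

end Pool.Agent.H58.OVT
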