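import Pool.Agent.H58.OVT.Bad

/-! The numerical conclusion for deterministic machines with many rounds. -/

set_option autoImplicit false
set_option maxHeartbeats 4000000

namespace Pool.Agent.H58.OVT

open Pool.Agent.H58.OVAC Pool.Agent.H58.OVPR

/-- The parameters. -/
theorem params {B n r T : ℕ} {x : ℝ} (hB : 1 ≤ B) (hL : 32 * B ≤ Nat.log 2 n) (hr : 1 ≤ r)
    (hT : 1 ≤ T) (hx : ((r * Nat.log 2 n : ℕ) : ℝ) ^ T ≤ x) :
    ((16 * ((r + 1) * (B * Nat.log 2 n)) : ℕ) : ℝ) ^ T ≤ x ^ 2 ∧ (T : ℝ) ≤ x ∧ (r : ℝ) ≤ x ∧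
      (((r + 1) * (B * Nat.log 2 n) : ℕ) : ℝ) ≤ x ^ 2 := by
  obtain ⟨L, hLdef⟩ : ∃ L, L = Nat.log 2 n := ⟨_, rfl⟩
  rw [← hLdef] at hL hx ⊢
  have hL1 : 32 ≤ L := le_trans (by omega) hL
  have hx0 : (0 : ℝ) ≤ x := le_trans (by positivity) hx
  have h1 : ((L : ℕ) : ℝ) ^ T ≤ x := by
    refine le_trans (pow_le_pow_left₀ (Nat.cast_nonneg _) ?_ T) hx
    exact_mod_cast Nat.le_mul_of_pos_left L hr
  have h2 : ((32 * B : ℕ) : ℝ) ^ T ≤ x :=
    le_trans (pow_le_pow_left₀ (Nat.cast_nonneg _) (by exact_mod_cast hL) T) h1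
  have h3 : (16 * ((r + 1) * (B * L)) : ℕ) ≤ (32 * B) * (r * L) := by
    have : (r + 1) ≤ 2 * r := by omega
    calc 16 * ((r + 1) * (B * L)) ≤ 16 * ((2 * r) * (B * L)) := by gcongr
      _ = (32 * B) * (r * L) := by ring
  have h4 : ((16 * ((r + 1) * (B * L)) : ℕ) : ℝ) ^ T ≤ x ^ 2 := by
    calc ((16 * ((r + 1) * (B * L)) : ℕ) : ℝ) ^ T ≤ (((32 * B) * (r * L) : ℕ) : ℝ) ^ T :=
          pow_le_pow_left₀ (Nat.cast_nonneg _) (by exact_mod_cast h3) T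
      _ = ((32 * B : ℕ) : ℝ) ^ T * ((r * L : ℕ) : ℝ) ^ T := by
          rw [← mul_pow]
          push_cast
          rfl
      _ ≤ x * x := mul_le_mul h2 hx (by positivity) hx0
      _ = x ^ 2 := (sq x).symm
  have h5 : (T : ℝ) ≤ x := by
    have e1 : T ≤ 2 ^ T := Nat.lt_two_pow_self.le
    have e2 : 2 ^ T ≤ L ^ T := Nat.pow_le_pow_left (by omega) T
    refine le_trans ?_ h1
    exact_mod_cast e1.trans e2
  have h6 : (r : ℝ) ≤ x := by
    have e1 : r ≤ r * L := Nat.le_mul_of_pos_right r (by omega)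
    have e2 : r * L ≤ (r * L) ^ T := Nat.le_self_pow (by omega) _
    refine le_trans ?_ hx
    exact_mod_cast e1.trans e2
  refine ⟨h4, h5, h6, ?_⟩
  refine le_trans ?_ h4
  have e1 : (r + 1) * (B * L) ≤ 16 * ((r + 1) * (B * L)) := Nat.le_mul_of_pos_left _ (by norm_num)
  have e2 : 16 * ((r + 1) * (B * L)) ≤ (16 * ((r + 1) * (B * L))) ^ T :=
    Nat.le_self_pow (by omega) _
  exact_mod_cast e1.trans e2

theorem core (C : ℕ) (ε : ℝ) (hε : 0 < ε) : ∃ (k : ℕ) (δ : ℝ), 2 ≤ k ∧ 0 < δ ∧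
    12 * δ ≤ 1 ∧ ∃ n₀ : ℕ,
    ∀ n ≥ n₀, ∀ r T : ℕ, 1 ≤ r → 1 ≤ T → ((r * Nat.log 2 n : ℕ) : ℝ) ^ T ≤ (n : ℝ) ^ δ →
    ∀ (D p : ℕ) (Cell St Wd : Type) [Fintype Cell] [DecidableEq Cell]
    (R : Run p Cell St Wd (Bool × Fin n → Str k D)), Quiet r R → (∀ P, DepOne (R.st 0 P)) →
    (∀ c, DepOne (R.ct 0 c)) → (∀ y, ∑ c, infl (R.ct 0 c) y ≤ 2 * n) →
    Fintype.card Cell ≤ n ^ C → (p : ℝ) < (n : ℝ) ^ (2 - ε) → ∀ (out : Cell) (acc : Wd → Bool),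
    (av fun y : Bool × Fin n → Str k D => avR fun a b => ∑ i : Fin n, ∑ j : Fin n,
      (if acc (R.ct (r * T) out (yAB y i j a b)) = true then (1 : ℝ) else 0)) ≤
      (n : ℝ) ^ 2 * (pr (fun y : Bool × Fin n → Str k D => acc (R.ct (r * T) out y) = true) +
        1 / 10) := by
  -- we may assume that `ε ≤ 1`
  wlog hε1 : ε ≤ 1 generalizing ε
  · obtain ⟨k, δ, hk, hδ, hδ1, n₀, h⟩ := this 1 one_pos le_rfl
    refine ⟨k, δ, hk, hδ, hδ1, max n₀ 1, ?_⟩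
    intro n hn r T hr hT hrT D p Cell St Wd _ _ R hq hs hc hB hcard hp out acc
    refine h n ((le_max_left _ _).trans hn) r T hr hT hrT D p Cell St Wd R hq hs hc hB hcard
      (hp.trans_le ?_) out acc
    have hn1 : (1 : ℝ) ≤ n := by exact_mod_cast (le_max_right _ _).trans hn
    exact Real.rpow_le_rpow_of_exponent_le hn1 (by linarith)
  -- parameters
  have hC4 : (0 : ℝ) < 4 * ((C : ℝ) + 4) := by positivity
  obtain ⟨η, hη⟩ : ∃ η : ℝ, η = ε / (4 * ((C : ℝ) + 4)) := ⟨_, rfl⟩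
  have hη0 : 0 < η := by rw [hη]; positivity
  have hη1 : η ≤ 1 := by
    rw [hη, div_le_one hC4]
    have : (0 : ℝ) ≤ C := Nat.cast_nonneg C
    linarith
  obtain ⟨k, hk, hgood⟩ := exists_good hη0 hη1
  obtain ⟨δ, hδdef⟩ : ∃ δ : ℝ, δ = ε / 60 := ⟨_, rfl⟩
  have hδ0 : 0 < δ := by rw [hδdef]; positivity
  have hδ1 : 12 * δ ≤ 1 := by rw [hδdef]; linarith
  refine ⟨k, δ, hk, hδ0, hδ1, ?_⟩
  obtain ⟨B, hBdef⟩ : ∃ B : ℕ, B = 2 * (2 * C + 7) := ⟨_, rfl⟩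
  have hlim2 : Filter.Tendsto (fun n : ℕ => (n : ℝ) ^ (ε / 2)) Filter.atTop Filter.atTop :=
    (tendsto_rpow_atTop (by positivity)).comp tendsto_natCast_atTop_atTop
  obtain ⟨n₀, hn₀⟩ := Filter.eventually_atTop.1 ((hlim2.eventually_ge_atTop (115200 : ℝ)).and
    (Filter.eventually_ge_atTop (max (2 ^ (32 * B)) 640)))
  refine ⟨n₀, ?_⟩
  intro n hn r T hr hT hrT D p Cell St Wd _ _ R hq hs hc hB hcard hp out acc
  obtain ⟨g2, g4'⟩ := hn₀ n hn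
  have g3 : 640 ≤ n := (le_max_right _ _).trans g4'
  have g4 : 2 ^ (32 * B) ≤ n := (le_max_left _ _).trans g4'
  have hLB : 32 * B ≤ Nat.log 2 n := by
    rw [← Nat.log_pow (by norm_num : 1 < 2) (32 * B)]
    exact Nat.log_mono_right g4
  have hn640 : (640 : ℝ) ≤ n := by exact_mod_cast g3
  have hn2 : (2 : ℝ) ≤ n := by linarith
  have hn1 : (1 : ℝ) ≤ n := by linarith
  have hn0 : (0 : ℝ) < n := by linarith
  have hB1 : 1 ≤ B := by omega
  obtain ⟨x, hx⟩ : ∃ x : ℝ, x = (n : ℝ) ^ δ := ⟨_, rfl⟩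
  rw [← hx] at hrT
  obtain ⟨hNT, hTx, hrx, hrs⟩ := params hB1 hLB hr hT hrT
  have hx1 : 1 ≤ x := by rw [hx]; exact Real.one_le_rpow hn1 hδ0.le
  have hx0 : 0 < x := by linarith
  obtain ⟨s, hsdef⟩ : ∃ s, s = B * Nat.log 2 n := ⟨_, rfl⟩
  rw [← hsdef] at hNT hrs
  have hs1 : 1 ≤ s := by
    rw [hsdef]
    exact Nat.mul_pos hB1 (by omega)
  obtain ⟨N, hN⟩ : ∃ N : ℕ, N = 16 * ((r + 1) * s) := ⟨_, rfl⟩
  rw [← hN] at hNT
  -- `n` and `2 ^ s`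
  have hns : (n : ℝ) ^ (2 * C + 7) ≤ 2 ^ s := by
    have e1 : n < 2 ^ (Nat.log 2 n + 1) := Nat.lt_pow_succ_log_self (by norm_num) n
    have e2 : n ≤ 2 ^ (2 * Nat.log 2 n) :=
      e1.le.trans (Nat.pow_le_pow_right (by norm_num) (by omega))
    have e3 : n ^ (2 * C + 7) ≤ 2 ^ s := by
      calc n ^ (2 * C + 7) ≤ (2 ^ (2 * Nat.log 2 n)) ^ (2 * C + 7) := Nat.pow_le_pow_left e2 _
        _ = 2 ^ s := by
            rw [← pow_mul, hsdef, hBdef]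
            congr 1
            ring
    exact_mod_cast e3
  obtain ⟨q, hqdef⟩ : ∃ q : ℝ, q = 1 + η := ⟨_, rfl⟩
  rw [← hqdef] at hgood
  have hq1 : 1 ≤ q := by linarith
  have hq2 : q ≤ 2 := by linarith
  have hθ : 1 - 1 / q ≤ η := by
    have : 1 / q ≥ 1 - η := by
      rw [ge_iff_le, le_div_iff₀ (by linarith), hqdef]
      nlinarith
    linarith
  have hθ0 : 0 ≤ 1 - 1 / q := by
    rw [sub_nonneg, div_le_one (by linarith)]
    exact hq1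
  obtain ⟨M, hM⟩ : ∃ M : ℝ, M = (((r + 1) * s * N ^ T : ℕ) : ℝ) + 1 := ⟨_, rfl⟩
  have hM0 : 0 ≤ M := by rw [hM]; positivity
  obtain ⟨M', hM'⟩ : ∃ M' : ℝ, M' = 3 * x ^ 4 := ⟨_, rfl⟩
  have hM'0 : 0 ≤ M' := by rw [hM']; positivity
  have hx4 : (1 : ℝ) ≤ x ^ 4 := one_le_pow₀ hx1
  have hMle : M + 1 ≤ M' := by
    have e1 : (((r + 1) * s * N ^ T : ℕ) : ℝ) ≤ x ^ 2 * x ^ 2 := by
      push_cast
      push_cast at hrs
      exact mul_le_mul hrs hNT (by positivity) (by positivity)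
    have e2 : x ^ 2 * x ^ 2 = x ^ 4 := by ring
    rw [hM, hM']
    linarith
  obtain ⟨T', hT'⟩ : ∃ T' : ℕ, T' = r * T := ⟨_, rfl⟩
  have hT'x : (T' : ℝ) ≤ x ^ 2 := by
    rw [hT', sq]
    push_cast
    exact mul_le_mul hrx hTx (Nat.cast_nonneg _) hx0.le
  have hx2 : (1 : ℝ) ≤ x ^ 2 := one_le_pow₀ hx1
  have hx5 : x ^ 5 ≤ n := by
    rw [hx, ← Real.rpow_natCast, ← Real.rpow_mul hn0.le]
    calc (n : ℝ) ^ (δ * (5 : ℕ)) ≤ (n : ℝ) ^ (1 : ℝ) := by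
          apply Real.rpow_le_rpow_of_exponent_le hn1
          push_cast
          linarith
      _ = n := Real.rpow_one _
  have hx12 : x ^ 12 ≤ (n : ℝ) ^ (ε / 4) := by
    rw [hx, ← Real.rpow_natCast, ← Real.rpow_mul hn0.le]
    apply Real.rpow_le_rpow_of_exponent_le hn1
    rw [hδdef]
    push_cast
    linarith
  -- the number of processors
  have hpn : (p : ℝ) ≤ (n : ℝ) ^ (2 - ε) := hp.le
  have hp2 : (p : ℝ) ≤ (n : ℝ) ^ 2 := by
    refine hpn.trans ?_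
    calc (n : ℝ) ^ (2 - ε) ≤ (n : ℝ) ^ (2 : ℝ) :=
          Real.rpow_le_rpow_of_exponent_le hn1 (by linarith)
      _ = (n : ℝ) ^ 2 := by
          rw [← Real.rpow_natCast]
          norm_num
  have hcardR : (Fintype.card Cell : ℝ) ≤ (n : ℝ) ^ C := by exact_mod_cast hcard
  have hcard0 : (0 : ℝ) ≤ Fintype.card Cell := Nat.cast_nonneg _
  have hp1 : (p : ℝ) + 1 ≤ 2 * (n : ℝ) ^ 2 := by nlinarith
  have hnC : (1 : ℝ) ≤ (n : ℝ) ^ C := one_le_pow₀ hn1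
  -- bad inputs
  have hne : Nonempty (Str k D) := ⟨fun _ => ⟨0, by omega⟩⟩
  have hδ := bad_le hr hs1 hN.ge T (Bool × Fin n) (Str k D) p Cell St Wd R hq hs hc
  rw [← hM, ← hT'] at hδ
  have hcardV : (Fintype.card (Bool × Fin n) : ℝ) = 2 * n := by
    simp
  have hδ' : pr (fun y : Bool × Fin n → Str k D => ¬ ((∀ τ ≤ T', ∀ P, infl (R.st τ P) y ≤ M) ∧
      ∀ τ ≤ T', ∀ c, infl (R.ct τ c) y ≤ M)) ≤ 1 / 40 := by
    refine hδ.trans ?_
    rw [hcardV]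
    have e1 : (p : ℝ) + Fintype.card Cell ≤ 2 * (n : ℝ) ^ 2 * (n : ℝ) ^ C := by
      have : (1 : ℝ) ≤ (n : ℝ) ^ 2 := one_le_pow₀ hn1
      nlinarith
    have e2 : ((T' : ℕ) : ℝ) + 1 ≤ 2 * x ^ 2 := by linarith
    have e3 : (T : ℝ) * (N : ℝ) ^ T ≤ x ^ 3 := by
      calc (T : ℝ) * (N : ℝ) ^ T ≤ x * x ^ 2 := mul_le_mul hTx hNT (by positivity) hx0.le
        _ = x ^ 3 := by ring
    have e5 : (T : ℝ) * (N : ℝ) ^ T * ((p + Fintype.card Cell : ℕ) : ℝ) / 2 ^ s ≤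
        x ^ 3 * (2 * (n : ℝ) ^ 2 * (n : ℝ) ^ C) / (n : ℝ) ^ (2 * C + 7) := by
      push_cast
      gcongr
    calc (((T' : ℕ) : ℝ) + 1) * (p + Fintype.card Cell) * (2 * n *
          ((T : ℝ) * (N : ℝ) ^ T * ((p + Fintype.card Cell : ℕ) : ℝ) / 2 ^ s))
        ≤ (2 * x ^ 2) * (2 * (n : ℝ) ^ 2 * (n : ℝ) ^ C) * (2 * n *
          (x ^ 3 * (2 * (n : ℝ) ^ 2 * (n : ℝ) ^ C) / (n : ℝ) ^ (2 * C + 7))) := by
          have e6 : (0 : ℝ) ≤ (T : ℝ) * (N : ℝ) ^ T * ((p + Fintype.card Cell : ℕ) : ℝ) /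
            2 ^ s := by positivity
          apply mul_le_mul (mul_le_mul e2 e1 (by positivity) (by positivity))
            (mul_le_mul_of_nonneg_left e5 (by positivity)) (by positivity) (by positivity)
      _ = 16 * x ^ 5 / (n : ℝ) ^ 2 := by
          field_simp
          ring
      _ ≤ 16 * n / (n : ℝ) ^ 2 := by gcongr
      _ = 16 / n := by
          field_simp
      _ ≤ 1 / 40 := by
          rw [div_le_div_iff₀ hn0 (by norm_num)]
          linarith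
  have hmain := rows_main hk hq1 hq2 hgood R hs hc T' out acc hM0 hB hδ'
  rw [← hT']
  refine hmain.trans ?_
  -- the main term
  have f1 : ((2 * n : ℕ) : ℝ) ^ (1 - 1 / q) ≤ 2 * (n : ℝ) ^ η := by
    push_cast
    calc (2 * (n : ℝ)) ^ (1 - 1 / q) ≤ (2 * (n : ℝ)) ^ η :=
          Real.rpow_le_rpow_of_exponent_le (by linarith) hθ
      _ = (2 : ℝ) ^ η * (n : ℝ) ^ η := Real.mul_rpow (by norm_num) hn0.le
      _ ≤ 2 * (n : ℝ) ^ η := by
          apply mul_le_mul_of_nonneg_right _ (by positivity)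
          calc (2 : ℝ) ^ η ≤ (2 : ℝ) ^ (1 : ℝ) :=
                Real.rpow_le_rpow_of_exponent_le (by norm_num) hη1
            _ = 2 := Real.rpow_one 2
  have f2 : ((Fintype.card Cell * (p + 1) * (2 * n) : ℕ) : ℝ) ^ (1 - 1 / q) ≤
      4 * (n : ℝ) ^ (((C : ℝ) + 3) * η) := by
    have e1 : ((Fintype.card Cell * (p + 1) * (2 * n) : ℕ) : ℝ) ≤ 4 * (n : ℝ) ^ (C + 3) := by
      push_cast
      calc (Fintype.card Cell : ℝ) * (p + 1) * (2 * n) ≤ (n : ℝ) ^ C * (2 * (n : ℝ) ^ 2) *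
            (2 * n) := by gcongr
        _ = 4 * (n : ℝ) ^ (C + 3) := by ring
    have e2 : (1 : ℝ) ≤ (n : ℝ) ^ (C + 3) := one_le_pow₀ hn1
    calc ((Fintype.card Cell * (p + 1) * (2 * n) : ℕ) : ℝ) ^ (1 - 1 / q) ≤
          (4 * (n : ℝ) ^ (C + 3)) ^ (1 - 1 / q) :=
          Real.rpow_le_rpow (Nat.cast_nonneg _) e1 hθ0
      _ ≤ (4 * (n : ℝ) ^ (C + 3)) ^ η :=
          Real.rpow_le_rpow_of_exponent_le (by linarith) hθ
      _ = (4 : ℝ) ^ η * ((n : ℝ) ^ (C + 3)) ^ η := Real.mul_rpow (by norm_num) (by positivity)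
      _ = (4 : ℝ) ^ η * (n : ℝ) ^ (((C : ℝ) + 3) * η) := by
          rw [← Real.rpow_natCast (n : ℝ) (C + 3), ← Real.rpow_mul hn0.le]
          push_cast
          rfl
      _ ≤ 4 * (n : ℝ) ^ (((C : ℝ) + 3) * η) := by
          apply mul_le_mul_of_nonneg_right _ (by positivity)
          calc (4 : ℝ) ^ η ≤ (4 : ℝ) ^ (1 : ℝ) :=
                Real.rpow_le_rpow_of_exponent_le (by norm_num) hη1
            _ = 4 := Real.rpow_one 4
  have hT0 : (0 : ℝ) ≤ T' := Nat.cast_nonneg T'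
  have f3 : 2 * (p : ℝ) * M * (T' + 2) + 2 * n + 2 ≤
      (n : ℝ) ^ (2 - ε) * M' * (10 * x ^ 2) := by
    have e1 : (n : ℝ) ≤ (n : ℝ) ^ (2 - ε) := by
      calc (n : ℝ) = (n : ℝ) ^ (1 : ℝ) := (Real.rpow_one _).symm
        _ ≤ (n : ℝ) ^ (2 - ε) := Real.rpow_le_rpow_of_exponent_le hn1 (by linarith)
    have e2 : (p : ℝ) * M ≤ (n : ℝ) ^ (2 - ε) * M' :=
      mul_le_mul hpn (by linarith) hM0 (by positivity)
    have e3 : (n : ℝ) ≤ (n : ℝ) ^ (2 - ε) * M' := by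
      calc (n : ℝ) ≤ (n : ℝ) ^ (2 - ε) * 1 := by rw [mul_one]; exact e1
        _ ≤ (n : ℝ) ^ (2 - ε) * M' := by
            apply mul_le_mul_of_nonneg_left _ (by positivity)
            linarith
    have e4 : (0 : ℝ) ≤ (n : ℝ) ^ (2 - ε) * M' := by positivity
    calc 2 * (p : ℝ) * M * (T' + 2) + 2 * n + 2 ≤ (2 * T' + 4) * ((p : ℝ) * M) + 4 * n := by
          nlinarith
      _ ≤ (2 * T' + 4) * ((n : ℝ) ^ (2 - ε) * M') + 4 * ((n : ℝ) ^ (2 - ε) * M') := by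
          apply add_le_add
          · exact mul_le_mul_of_nonneg_left e2 (by positivity)
          · linarith
      _ = (2 * T' + 8) * ((n : ℝ) ^ (2 - ε) * M') := by ring
      _ ≤ (10 * x ^ 2) * ((n : ℝ) ^ (2 - ε) * M') :=
          mul_le_mul_of_nonneg_right (by linarith) e4
      _ = _ := by ring
  have f4 : (T' : ℝ) * (4 * (((2 * n : ℕ) : ℝ) ^ (1 - 1 / q) * (M + 1)) *
        (((Fintype.card Cell * (p + 1) * (2 * n) : ℕ) : ℝ) ^ (1 - 1 / q) *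
          (2 * p * M * (T' + 2) + 2 * n + 2))) ≤ (n : ℝ) ^ 2 * (1 / 40) := by
    have e0 : 0 ≤ ((Fintype.card Cell * (p + 1) * (2 * n) : ℕ) : ℝ) ^ (1 - 1 / q) :=
      Real.rpow_nonneg (Nat.cast_nonneg _) _
    have e0' : 0 ≤ ((2 * n : ℕ) : ℝ) ^ (1 - 1 / q) := Real.rpow_nonneg (Nat.cast_nonneg _) _
    calc (T' : ℝ) * (4 * (((2 * n : ℕ) : ℝ) ^ (1 - 1 / q) * (M + 1)) *
        (((Fintype.card Cell * (p + 1) * (2 * n) : ℕ) : ℝ) ^ (1 - 1 / q) *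
          (2 * p * M * (T' + 2) + 2 * n + 2)))
        ≤ x ^ 2 * (4 * ((2 * (n : ℝ) ^ η) * M') * ((4 * (n : ℝ) ^ (((C : ℝ) + 3) * η)) *
          ((n : ℝ) ^ (2 - ε) * M' * (10 * x ^ 2)))) := by
          apply mul_le_mul hT'x _ (by positivity) (by positivity)
          apply mul_le_mul
          · apply mul_le_mul_of_nonneg_left _ (by norm_num)
            exact mul_le_mul f1 hMle (by linarith) (by positivity)
          · exact mul_le_mul f2 f3 (by positivity) (by positivity)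
          · exact mul_nonneg e0 (by positivity)
          · positivity
      _ = 2880 * (x ^ 12 * ((n : ℝ) ^ η * (n : ℝ) ^ (((C : ℝ) + 3) * η) *
          (n : ℝ) ^ (2 - ε))) := by
          rw [hM']
          ring
      _ ≤ 2880 * ((n : ℝ) ^ (ε / 4) * ((n : ℝ) ^ η * (n : ℝ) ^ (((C : ℝ) + 3) * η) *
          (n : ℝ) ^ (2 - ε))) := by
          gcongr
      _ = 2880 * (n : ℝ) ^ (ε / 4 + (η + ((C : ℝ) + 3) * η + (2 - ε))) := by
          rw [Real.rpow_add hn0 (ε / 4), Real.rpow_add hn0 (η + ((C : ℝ) + 3) * η),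
            Real.rpow_add hn0 η]
      _ = 2880 * (n : ℝ) ^ (2 - ε / 2) := by
          congr 2
          have e5 : η + ((C : ℝ) + 3) * η = ε / 4 := by
            rw [hη]
            field_simp
            ring
          rw [e5]
          ring
      _ ≤ (n : ℝ) ^ 2 * (1 / 40) := by
          have e6 : (n : ℝ) ^ (2 - ε / 2) * (n : ℝ) ^ (ε / 2) = (n : ℝ) ^ 2 := by
            rw [← Real.rpow_add hn0, ← Real.rpow_natCast]
            congr 1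
            push_cast
            ring
          have e7 : 0 < (n : ℝ) ^ (2 - ε / 2) := by positivity
          nlinarith
  linarith

end Pool.Agent.H58.OVT
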