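import Pool.Agent.H58.OVT.Core
import Pool.Agent.H58.OVPR.Det

/-! Deterministic machines with unlimited memory and many rounds. -/

set_option autoImplicit false
set_option maxHeartbeats 4000000

namespace Pool.Agent.H58.OVT

open Pool.Agent.H58.OVAC Pool.Agent.H58.OVPR

/-- Machines with few processors do not see the planted pair. -/
theorem det (ε : ℝ) (hε : 0 < ε) : ∃ (k : ℕ) (δ : ℝ), 2 ≤ k ∧ 0 < δ ∧ ∃ n₀ : ℕ, ∀ n ≥ n₀,
    ∀ r T : ℕ, 1 ≤ r → 1 ≤ T → ((r * Nat.log 2 n : ℕ) : ℝ) ^ T ≤ (n : ℝ) ^ δ →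
    ∀ (D p : ℕ) (St Wd : Type) (A : Mach p ((Bool × Fin n) ⊕ ℕ) St Wd) (s0 : St) (w0 : Wd)
    (enc : Bool × Fin n → Str k D → Wd), (∀ τ, ¬ r ∣ τ + 1 → ∀ P s, A.write τ P s = none) →
    (p : ℝ) < (n : ℝ) ^ (2 - ε) →
    ∀ (out : (Bool × Fin n) ⊕ ℕ) (acc : Wd → Bool),
    pr (fun τ : Test n k D => acc ((A.run (start s0 w0 enc ℕ τ.y) (r * T)).2 out) = true) ≤
      pr (fun y : Bool × Fin n → Str k D =>
        acc ((A.run (start s0 w0 enc ℕ y) (r * T)).2 out) = true) + 1 / 8 := by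
  classical
  obtain ⟨k, δ, hk, hδ, hδ1, n₀, hcore⟩ := OVT.core 7 ε hε
  refine ⟨k, δ, hk, hδ, max (max n₀ (2 ^ 32)) 720, ?_⟩
  intro n hn r T hr hT hrT D p St Wd A s0 w0 enc hquiet hp out acc
  have hn720 : 720 ≤ n := (le_max_right _ _).trans hn
  have hnn₀ : n₀ ≤ n := (le_max_left _ _).trans ((le_max_left _ _).trans hn)
  have hn32 : 2 ^ 32 ≤ n := (le_max_right _ _).trans ((le_max_left _ _).trans hn)
  have hn2 : 2 ≤ n := by omega
  have hn720' : (720 : ℝ) ≤ n := by exact_mod_cast hn720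
  have hn2' : (2 : ℝ) ≤ n := by linarith
  have hn1 : (1 : ℝ) ≤ n := by linarith
  have hn0 : (0 : ℝ) < n := by linarith
  have hne : Nonempty (Str k D) := ⟨fun _ => ⟨0, by omega⟩⟩
  have hneT : Nonempty (Test n k D) := by
    refine ⟨(fun _ => hne.some, (⟨0, by omega⟩, ⟨0, by omega⟩), ⟨(fun _ => ⟨0, by omega⟩,
      fun _ => ⟨1, by omega⟩), fun c h => ?_⟩)⟩
    simp at h
  -- the number of steps
  obtain ⟨x, hx⟩ : ∃ x : ℝ, x = (n : ℝ) ^ δ := ⟨_, rfl⟩
  have hLB : 32 * 1 ≤ Nat.log 2 n := by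
    rw [← Nat.log_pow (by norm_num : 1 < 2) (32 * 1)]
    exact Nat.log_mono_right hn32
  obtain ⟨-, hTx, hrx, -⟩ := params le_rfl hLB hr hT (hx ▸ hrT)
  have hx1 : 1 ≤ x := by rw [hx]; exact Real.one_le_rpow hn1 hδ.le
  have hx0 : 0 < x := by linarith
  obtain ⟨T', hT'⟩ : ∃ T' : ℕ, T' = r * T := ⟨_, rfl⟩
  have hT'x : (T' : ℝ) ≤ x ^ 2 := by
    rw [hT', sq]
    push_cast
    exact mul_le_mul hrx hTx (Nat.cast_nonneg _) hx0.le
  have hx4 : x ^ 4 ≤ n := by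
    rw [hx, ← Real.rpow_natCast, ← Real.rpow_mul hn0.le]
    calc (n : ℝ) ^ (δ * (4 : ℕ)) ≤ (n : ℝ) ^ (1 : ℝ) := by
          apply Real.rpow_le_rpow_of_exponent_le hn1
          push_cast
          linarith
      _ = n := Real.rpow_one _
  have hx2 : (1 : ℝ) ≤ x ^ 2 := one_le_pow₀ hx1
  -- the number of processors
  have hp2 : (p : ℝ) ≤ (n : ℝ) ^ 2 := by
    refine hp.le.trans ?_
    calc (n : ℝ) ^ (2 - ε) ≤ (n : ℝ) ^ (2 : ℝ) :=
          Real.rpow_le_rpow_of_exponent_le hn1 (by linarith)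
      _ = (n : ℝ) ^ 2 := by
          rw [← Real.rpow_natCast]
          norm_num
  -- hashing
  have hm : 0 < n ^ 6 := by positivity
  let S : (Bool × Fin n → Str k D) → Finset ((Bool × Fin n) ⊕ ℕ) := fun y =>
    insert out (A.touched T' (start s0 w0 enc ℕ y))
  have hS : ∀ y, (S y).card ≤ T' * p * 2 + 1 := fun y =>
    (Finset.card_insert_le _ _).trans (Nat.add_le_add_right (A.touched_card T' _) 1)
  obtain ⟨h, hh⟩ := exists_hash hm (fun τ : Test n k D => S τ.y) S (fun τ => hS _) hS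
  have hcol : 2 * (((T' * p * 2 + 1 : ℕ) : ℝ) ^ 2 / ((n ^ 6 : ℕ) : ℝ)) ≤ 1 / 40 := by
    push_cast
    have e1 : (T' : ℝ) * p * 2 + 1 ≤ 3 * x ^ 2 * (n : ℝ) ^ 2 := by
      have hT0 : (0 : ℝ) ≤ T' := Nat.cast_nonneg T'
      have e2 : (T' : ℝ) * p ≤ x ^ 2 * (n : ℝ) ^ 2 :=
        mul_le_mul hT'x hp2 (Nat.cast_nonneg _) (by positivity)
      have e3 : (1 : ℝ) ≤ (n : ℝ) ^ 2 := one_le_pow₀ hn1
      have e4 : (1 : ℝ) ≤ x ^ 2 * (n : ℝ) ^ 2 := one_le_mul_of_one_le_of_one_le hx2 e3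
      linarith
    have e4 : ((T' : ℝ) * p * 2 + 1) ^ 2 ≤ (3 * x ^ 2 * (n : ℝ) ^ 2) ^ 2 :=
      pow_le_pow_left₀ (by positivity) e1 2
    have e5 : (3 * x ^ 2 * (n : ℝ) ^ 2) ^ 2 = 9 * x ^ 4 * (n : ℝ) ^ 4 := by ring
    have e6 : 9 * x ^ 4 * (n : ℝ) ^ 4 ≤ 9 * n * (n : ℝ) ^ 4 := by gcongr
    rw [← mul_div_assoc, div_le_div_iff₀ (by positivity) (by norm_num)]
    have e7 : (n : ℝ) ^ 5 * 720 ≤ (n : ℝ) ^ 5 * n :=
      mul_le_mul_of_nonneg_left hn720' (by positivity)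
    have e8 : (n : ℝ) ^ 5 * n = (n : ℝ) ^ 6 := by ring
    have e9 : 9 * (n : ℝ) * (n : ℝ) ^ 4 = 9 * (n : ℝ) ^ 5 := by ring
    linarith
  -- the hashed machine
  let π : (Bool × Fin n) ⊕ ℕ → (Bool × Fin n) ⊕ Fin (n ^ 6) := Sum.map id h
  let A' := A.map π
  let R : Run p ((Bool × Fin n) ⊕ Fin (n ^ 6)) St Wd (Bool × Fin n → Str k D) :=
    A'.toRun (start s0 w0 enc (Fin (n ^ 6)))
  have hq : Quiet r R := by
    intro τ hτ P s
    show (A.write τ P s).map (Prod.map π id) = none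
    rw [hquiet τ hτ P s]
    rfl
  have hsame : ∀ y, Set.InjOn π (S y : Set ((Bool × Fin n) ⊕ ℕ)) →
      (A.run (start s0 w0 enc ℕ y) T').2 out = R.ct T' (π out) y := by
    intro y hy
    have h1 := A.map_run π T' (fun _ => s0) (Sum.elim (fun q => enc q (y q)) fun _ => w0)
      (Sum.elim (fun q => enc q (y q)) fun _ => w0) (S y) hy
      (by
        intro c _
        rcases c with q | a
        · rfl
        · rfl)
      (fun τ hτ P => Finset.mem_insert_of_mem (A.read_mem T' _ τ hτ P))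
      (fun τ hτ P w hw => Finset.mem_insert_of_mem (A.write_mem T' _ τ hτ P w hw)) T' le_rfl
    exact (h1.2 out (Finset.mem_insert_self _ _)).symm
  have hs0 : ∀ P, DepOne (R.st 0 P) := fun P => ⟨∅, by simp, fun x y _ => rfl⟩
  have hc0 : ∀ c, DepOne (R.ct 0 c) := by
    rintro (q | a)
    · refine ⟨{q}, by simp, fun x y hxy => ?_⟩
      show enc q (x q) = enc q (y q)
      rw [hxy q (Finset.mem_singleton_self q)]
    · exact ⟨∅, by simp, fun x y _ => rfl⟩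
  have hB : ∀ y, ∑ c, infl (R.ct 0 c) y ≤ 2 * n := by
    intro y
    rw [Fintype.sum_sum_type]
    have e1 : ∑ q : Bool × Fin n, infl (R.ct 0 (Sum.inl q)) y ≤ 2 * n := by
      calc ∑ q : Bool × Fin n, infl (R.ct 0 (Sum.inl q)) y ≤ ∑ _q : Bool × Fin n, (1 : ℝ) :=
            Finset.sum_le_sum fun q _ => infl_depOne (hc0 _) y
        _ = 2 * n := by simp
    have e2 : ∑ a : Fin (n ^ 6), infl (R.ct 0 (Sum.inr a)) y = 0 :=
      Finset.sum_eq_zero fun a _ => infl_const w0 y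
    rw [e2, add_zero]
    exact e1
  have hcard : Fintype.card ((Bool × Fin n) ⊕ Fin (n ^ 6)) ≤ n ^ 7 := by
    rw [Fintype.card_sum, Fintype.card_prod, Fintype.card_bool, Fintype.card_fin,
      Fintype.card_fin]
    have e1 : n * n ^ 5 = n ^ 6 := by ring
    have e2 : 2 ^ 5 ≤ n ^ 5 := Nat.pow_le_pow_left hn2 5
    have e3 : n ^ 7 = n * n ^ 6 := by ring
    have e4 : 2 * n ≤ n ^ 6 := by nlinarith
    have e5 : 2 * n ^ 6 ≤ n * n ^ 6 := Nat.mul_le_mul_right _ hn2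
    omega
  have hmain := hcore n hnn₀ r T hr hT hrT D p _ St Wd R hq hs0 hc0 hB hcard hp (π out) acc
  rw [← hT'] at hmain ⊢
  have hpt := pr_test (n := n) (k := k) (D := D) (by omega) hk
    fun y => acc (R.ct T' (π out) y) = true
  have hmain' : (n : ℝ) ^ 2 * pr (fun τ : Test n k D => acc (R.ct T' (π out) τ.y) = true) ≤
      (n : ℝ) ^ 2 * (pr (fun y : Bool × Fin n → Str k D => acc (R.ct T' (π out) y) = true) +
        1 / 10) := by
    rw [hpt]
    refine le_of_eq_of_le ?_ hmain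
    refine av_congr fun y => ?_
    congr 1
    funext a b
    refine Finset.sum_congr rfl fun i _ => Finset.sum_congr rfl fun j _ => ?_
    congr
  have hmain'' := le_of_mul_le_mul_left hmain' (by positivity)
  have g1 : pr (fun τ : Test n k D =>
      acc ((A.run (start s0 w0 enc ℕ τ.y) T').2 out) = true) ≤
      pr (fun τ : Test n k D => acc (R.ct T' (π out) τ.y) = true) +
      pr (fun τ : Test n k D => ¬ Set.InjOn (Sum.map id h) (S τ.y : Set ((Bool × Fin n) ⊕ ℕ))) := by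
    refine (pr_mono fun τ hτ => ?_).trans (pr_or_le _ _)
    by_cases hinj : Set.InjOn π (S τ.y : Set ((Bool × Fin n) ⊕ ℕ))
    · left
      rw [← hsame _ hinj]
      exact hτ
    · exact Or.inr hinj
  have g2 : pr (fun y : Bool × Fin n → Str k D => acc (R.ct T' (π out) y) = true) ≤
      pr (fun y : Bool × Fin n → Str k D =>
        acc ((A.run (start s0 w0 enc ℕ y) T').2 out) = true) +
      pr (fun y : Bool × Fin n → Str k D =>
        ¬ Set.InjOn (Sum.map id h) (S y : Set ((Bool × Fin n) ⊕ ℕ))) := by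
    refine (pr_mono fun y hy => ?_).trans (pr_or_le _ _)
    by_cases hinj : Set.InjOn π (S y : Set ((Bool × Fin n) ⊕ ℕ))
    · left
      rw [hsame _ hinj]
      exact hy
    · exact Or.inr hinj
  have g3 := hh.trans hcol
  linarith

end Pool.Agent.H58.OVT
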