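import Pool.Agent.H58.OVPR.Sens

/-! Decision trees. -/

set_option autoImplicit false
set_option maxHeartbeats 4000000

namespace Pool.Agent.H58.OVT

open Pool.Agent.H58.OVAC Pool.Agent.H58.OVPR

section dt

variable {V Y Z : Type} [DecidableEq V]

/-- `f` is computed by a decision tree of depth at most `t`. -/
def Dt : ℕ → ((V → Bool) → Y) → Prop
  | 0, f => ∀ σ τ, f σ = f τ
  | t + 1, f => (∀ σ τ, f σ = f τ) ∨ ∃ i : V, ∀ b : Bool, Dt t fun σ => f (Function.update σ i b)

theorem Dt.of_const {t : ℕ} {f : (V → Bool) → Y} (h : ∀ σ τ, f σ = f τ) : Dt t f := by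
  cases t with
  | zero => exact h
  | succ t => exact Or.inl h

theorem Dt.succ {t : ℕ} : ∀ {f : (V → Bool) → Y}, Dt t f → Dt (t + 1) f := by
  induction t with
  | zero =>
    intro f hf
    exact Or.inl hf
  | succ t ih =>
    intro f hf
    rcases hf with hf | ⟨i, hi⟩
    · exact Or.inl hf
    · exact Or.inr ⟨i, fun b => ih (hi b)⟩

theorem Dt.mono {s t : ℕ} (h : s ≤ t) {f : (V → Bool) → Y} (hf : Dt s f) : Dt t f := by
  induction h with
  | refl => exact hf
  | step _ ih => exact ih.succ

theorem Dt.comp {t : ℕ} : ∀ {f : (V → Bool) → Y} (_ : Dt t f) (g : Y → Z),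
    Dt t fun σ => g (f σ) := by
  induction t with
  | zero =>
    intro f hf g σ τ
    show g (f σ) = g (f τ)
    rw [hf σ τ]
  | succ t ih =>
    intro f hf g
    rcases hf with hf | ⟨i, hi⟩
    · refine Or.inl fun σ τ => ?_
      show g (f σ) = g (f τ)
      rw [hf σ τ]
    · exact Or.inr ⟨i, fun b => ih (hi b) g⟩

theorem Dt.fix {t : ℕ} : ∀ {f : (V → Bool) → Y} (_ : Dt t f) (i : V) (b : Bool),
    Dt t fun σ => f (Function.update σ i b) := by
  induction t with
  | zero =>
    intro f hf i b σ τ
    exact hf _ _
  | succ t ih =>
    intro f hf i b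
    rcases hf with hf | ⟨k, hk⟩
    · exact Or.inl fun σ τ => hf _ _
    · by_cases hki : k = i
      · subst hki
        exact (hk b).succ
      · refine Or.inr ⟨k, fun b' => ?_⟩
        have h1 := ih (hk b') i b
        have h2 : (fun σ : V → Bool => f (Function.update (Function.update σ k b') i b)) =
            fun σ => f (Function.update (Function.update σ i b) k b') := by
          funext σ
          rw [Function.update_comm hki]
        show Dt t fun σ : V → Bool => f (Function.update (Function.update σ k b') i b)
        rw [h2]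
        exact h1

theorem Dt.bind {s t : ℕ} : ∀ {f : (V → Bool) → Y} (_ : Dt s f) {G : Y → (V → Bool) → Z}
    (_ : ∀ y, Dt t (G y)), Dt (s + t) fun σ => G (f σ) σ := by
  have hconst : ∀ {s : ℕ} {f : (V → Bool) → Y} (_ : ∀ σ τ, f σ = f τ)
      {G : Y → (V → Bool) → Z} (_ : ∀ y, Dt t (G y)), Dt (s + t) fun σ => G (f σ) σ := by
    intro s f hf G hG
    have h1 : (fun σ => G (f σ) σ) = G (f fun _ => false) := by
      funext σ
      rw [hf σ fun _ => false]
    rw [h1]
    exact (hG _).mono (Nat.le_add_left _ _)
  induction s with
  | zero =>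
    intro f hf G hG
    exact hconst hf hG
  | succ s ih =>
    intro f hf G hG
    rcases hf with hf | ⟨i, hi⟩
    · exact hconst hf hG
    · rw [Nat.succ_add]
      refine Or.inr ⟨i, fun b => ?_⟩
      exact ih (hi b) (G := fun y σ => G y (Function.update σ i b)) fun y => (hG y).fix i b

theorem Dt.restr {t N : ℕ} (ω : V → Fin N × Bool) (j : Fin N) :
    ∀ {f : (V → Bool) → Y} (_ : Dt t f), Dt t (restr ω j f) := by
  induction t with
  | zero =>
    intro f hf σ τ
    exact hf _ _
  | succ t ih =>
    intro f hf
    rcases hf with hf | ⟨k, hk⟩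
    · exact Or.inl fun σ τ => hf _ _
    · by_cases hkj : (ω k).1 = j
      · refine Or.inr ⟨k, fun b => ?_⟩
        have h1 := ih (hk b)
        refine (congrArg (Dt t) ?_).mp h1
        funext σ
        unfold OVAC.restr
        beta_reduce
        congr 1
        funext i
        by_cases hik : i = k
        · subst hik
          simp [hkj]
        · simp [Function.update_of_ne hik]
      · have h1 := ih (hk (ω k).2)
        refine Dt.succ ((congrArg (Dt t) ?_).mp h1)
        funext σ
        unfold OVAC.restr
        beta_reduce
        congr 1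
        funext i
        by_cases hik : i = k
        · subst hik
          simp [hkj]
        · simp [Function.update_of_ne hik]

theorem dt_of_isJunta_one {f : (V → Bool) → Y} (hf : IsJunta 1 f) : Dt 1 f := by
  obtain ⟨J, h1, h2⟩ := hf
  rcases J.eq_empty_or_nonempty with hJ | ⟨i, hi⟩
  · subst hJ
    exact Or.inl fun σ τ => h2 σ τ fun i hi => absurd hi (Finset.notMem_empty i)
  · refine Or.inr ⟨i, fun b σ τ => h2 _ _ fun k hk => ?_⟩
    have hk' : k = i := Finset.card_le_one.1 h1 k hk i hi
    subst hk'
    simp

/-- Query a set of coordinates. -/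
theorem Dt.query {t : ℕ} (J : Finset V) : ∀ {f : (V → Bool) → Y}
    (_ : ∀ τ : V → Bool, Dt t fun σ => f (mix J τ σ)), Dt (t + J.card) f := by
  induction J using Finset.induction_on with
  | empty =>
    intro f h
    have h1 := h fun _ => false
    have h2 : (fun σ => f (mix ∅ (fun _ => false) σ)) = f := by
      funext σ
      congr 1
    rw [h2] at h1
    simpa using h1
  | insert i J hi ih =>
    intro f h
    rw [Finset.card_insert_of_notMem hi, ← Nat.add_assoc]
    refine Or.inr ⟨i, fun b => ?_⟩
    refine ih (f := fun σ => f (Function.update σ i b)) fun τ => ?_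
    have h1 := h (Function.update τ i b)
    refine (congrArg (Dt t) ?_).mp h1
    funext σ
    congr 1
    funext k
    unfold mix
    by_cases hki : k = i
    · subst hki
      simp
    · by_cases hkJ : k ∈ J
      · simp [hki, hkJ]
      · simp [hki, hkJ]

end dt

theorem sens_le_of_dt {V Y : Type} [Fintype V] [DecidableEq V] {t : ℕ} :
    ∀ {f : (V → Bool) → Y} (_ : Dt t f) (σ : V → Bool), sens f σ ≤ t := by
  classical
  have hconst : ∀ {f : (V → Bool) → Y} (_ : ∀ σ τ, f σ = f τ) (σ : V → Bool),
      sens f σ = 0 := by
    intro f hf σ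
    unfold sens
    rw [Finset.card_eq_zero]
    exact Finset.filter_eq_empty_iff.2 fun i _ h => h (hf _ _)
  induction t with
  | zero =>
    intro f hf σ
    exact (hconst hf σ).le
  | succ t ih =>
    intro f hf σ
    rcases hf with hf | ⟨i, hi⟩
    · rw [hconst hf σ]
      exact Nat.zero_le _
    · have h1 := ih (hi (σ i)) σ
      have h2 : sens f σ ≤ sens (fun σ' => f (Function.update σ' i (σ i))) σ + 1 := by
        unfold sens
        refine (Finset.card_le_card (t := insert i (Finset.univ.filter fun k =>
          f (Function.update (OVPR.flip σ k) i (σ i)) ≠ f (Function.update σ i (σ i))))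
          ?_).trans (Finset.card_insert_le _ _)
        intro k hk
        by_cases hki : k = i
        · subst hki
          exact Finset.mem_insert_self _ _
        · refine Finset.mem_insert_of_mem (Finset.mem_filter.2 ⟨Finset.mem_univ _, ?_⟩)
          have h3 := (Finset.mem_filter.1 hk).2
          have h4 : Function.update (OVPR.flip σ k) i (σ i) = OVPR.flip σ k := by
            funext m
            by_cases hmi : m = i
            · subst hmi
              have : m ≠ k := fun h => hki h.symm
              simp [OVPR.flip, this]
            · simp [hmi]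
          rw [h4, Function.update_eq_self]
          exact h3
      omega

end Pool.Agent.H58.OVT
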