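import Pool.Agent.H58.OVT.Dt
import Pool.Agent.H58.OVPR.Hash

/-! Decision lists. -/

set_option autoImplicit false
set_option maxHeartbeats 4000000

namespace Pool.Agent.H58.OVT

open Pool.Agent.H58.OVAC Pool.Agent.H58.OVPR

/-- An item of a decision list: a term and a value. -/
abbrev Item (V Y : Type) : Type := (Finset V × (V → Bool)) × Y

/-- The term is satisfied. -/
def Sat {V : Type} (C : Finset V × (V → Bool)) (σ : V → Bool) : Prop := ∀ i ∈ C.1, σ i = C.2 i

open Classical in
/-- The value of a decision list. -/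
noncomputable def evalL {V Y : Type} : List (Item V Y) → Y → (V → Bool) → Y
  | [], y0, _ => y0
  | x :: L, y0, σ => if Sat x.1 σ then x.2 else evalL L y0 σ

open Classical in
/-- Fix the coordinates in `U`. -/
noncomputable def fixL {V Y : Type} [DecidableEq V] (U : Finset V) (π : V → Bool) :
    List (Item V Y) → List (Item V Y)
  | [] => []
  | x :: L => if ∃ i ∈ x.1.1, i ∈ U ∧ π i ≠ x.1.2 i then fixL U π L
      else ((x.1.1 \ U, x.1.2), x.2) :: fixL U π L

section

variable {V Y : Type}

theorem evalL_pos {x : Item V Y} {L : List (Item V Y)} {y0 : Y} {σ : V → Bool}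
    (h : Sat x.1 σ) : evalL (x :: L) y0 σ = x.2 := by
  rw [evalL, if_pos h]

theorem evalL_neg {x : Item V Y} {L : List (Item V Y)} {y0 : Y} {σ : V → Bool}
    (h : ¬ Sat x.1 σ) : evalL (x :: L) y0 σ = evalL L y0 σ := by
  rw [evalL, if_neg h]

variable [DecidableEq V]

theorem fixL_pos {U : Finset V} {π : V → Bool} {x : Item V Y} {L : List (Item V Y)}
    (h : ∃ i ∈ x.1.1, i ∈ U ∧ π i ≠ x.1.2 i) : fixL U π (x :: L) = fixL U π L := by
  rw [fixL, if_pos h]

theorem fixL_neg {U : Finset V} {π : V → Bool} {x : Item V Y} {L : List (Item V Y)}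
    (h : ¬ ∃ i ∈ x.1.1, i ∈ U ∧ π i ≠ x.1.2 i) :
    fixL U π (x :: L) = ((x.1.1 \ U, x.1.2), x.2) :: fixL U π L := by
  rw [fixL, if_neg h]

theorem evalL_fixL (U : Finset V) (π : V → Bool) (L : List (Item V Y)) (y0 : Y)
    (σ : V → Bool) : evalL (fixL U π L) y0 σ = evalL L y0 (mix U π σ) := by
  induction L with
  | nil => rfl
  | cons x L ih =>
    by_cases h : ∃ i ∈ x.1.1, i ∈ U ∧ π i ≠ x.1.2 i
    · have h1 : ¬ Sat x.1 (mix U π σ) := by
        obtain ⟨i, h1, h2, h3⟩ := h
        intro h4
        apply h3
        rw [← h4 i h1]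
        unfold mix
        rw [if_pos h2]
      rw [fixL_pos h, evalL_neg h1, ih]
    · have h0 : fixL U π (x :: L) = ((x.1.1 \ U, x.1.2), x.2) :: fixL U π L := fixL_neg h
      rw [h0]
      have h1 : Sat (x.1.1 \ U, x.1.2) σ ↔ Sat x.1 (mix U π σ) := by
        push Not at h
        unfold Sat mix
        constructor
        · intro h2 i hi
          by_cases hU : i ∈ U
          · rw [if_pos hU]
            exact h i hi hU
          · rw [if_neg hU]
            exact h2 i (Finset.mem_sdiff.2 ⟨hi, hU⟩)
        · intro h2 i hi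
          have h3 := Finset.mem_sdiff.1 hi
          have h4 := h2 i h3.1
          rwa [if_neg h3.2] at h4
      by_cases h2 : Sat x.1 (mix U π σ)
      · rw [evalL_pos h2, evalL_pos (h1.2 h2)]
      · rw [evalL_neg h2, evalL_neg fun h3 => h2 (h1.1 h3)]
        exact ih

theorem fixL_length (U : Finset V) (π : V → Bool) (L : List (Item V Y)) :
    (fixL U π L).length ≤ L.length := by
  induction L with
  | nil => exact le_rfl
  | cons x L ih =>
    by_cases h : ∃ i ∈ x.1.1, i ∈ U ∧ π i ≠ x.1.2 i
    · have h0 : fixL U π (x :: L) = fixL U π L := fixL_pos h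
      rw [h0, List.length_cons]
      omega
    · have h0 : fixL U π (x :: L) = ((x.1.1 \ U, x.1.2), x.2) :: fixL U π L := fixL_neg h
      rw [h0, List.length_cons, List.length_cons]
      omega

theorem fixL_mem (U : Finset V) (π : V → Bool) (L : List (Item V Y)) :
    ∀ x ∈ fixL U π L, (∀ i ∈ x.1.1, i ∉ U) ∧ ∃ x' ∈ L, x.1.1 ⊆ x'.1.1 := by
  induction L with
  | nil =>
    intro x hx
    exact absurd hx (List.not_mem_nil)
  | cons z L ih =>
    intro x hx
    by_cases h : ∃ i ∈ z.1.1, i ∈ U ∧ π i ≠ z.1.2 i
    · have h0 : fixL U π (z :: L) = fixL U π L := fixL_pos h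
      rw [h0] at hx
      obtain ⟨h1, x', h2, h3⟩ := ih x hx
      exact ⟨h1, x', List.mem_cons_of_mem _ h2, h3⟩
    · have h0 : fixL U π (z :: L) = ((z.1.1 \ U, z.1.2), z.2) :: fixL U π L := fixL_neg h
      rw [h0] at hx
      rcases List.mem_cons.1 hx with hx | hx
      · subst hx
        exact ⟨fun i hi => (Finset.mem_sdiff.1 hi).2, z, List.mem_cons_self,
          Finset.sdiff_subset⟩
      · obtain ⟨h1, x', h2, h3⟩ := ih x hx
        exact ⟨h1, x', List.mem_cons_of_mem _ h2, h3⟩

theorem fixL_width {w : ℕ} (U : Finset V) (π : V → Bool) (L : List (Item V Y))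
    (hL : ∀ x ∈ L, x.1.1.card ≤ w) : ∀ x ∈ fixL U π L, x.1.1.card ≤ w := by
  intro x hx
  obtain ⟨-, x', h2, h3⟩ := fixL_mem U π L x hx
  exact (Finset.card_le_card h3).trans (hL x' h2)

/-- Add a literal to all terms. -/
noncomputable def addL (i : V) (b : Bool) (L : List (Item V Y)) : List (Item V Y) :=
  (fixL {i} (fun _ => b) L).map fun x => ((insert i x.1.1, Function.update x.1.2 i b), x.2)

theorem evalL_addL (i : V) (b : Bool) (L R : List (Item V Y)) (y0 : Y) (σ : V → Bool) :
    evalL (addL i b L ++ R) y0 σ = if σ i = b then evalL (L ++ R) y0 σ else evalL R y0 σ := by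
  induction L with
  | nil =>
    show evalL R y0 σ = if _ then evalL R y0 σ else evalL R y0 σ
    rw [ite_self]
  | cons x L ih =>
    by_cases h : ∃ k ∈ x.1.1, k ∈ ({i} : Finset V) ∧ b ≠ x.1.2 k
    · have h0 : addL i b (x :: L) = addL i b L := by
        unfold addL
        rw [fixL_pos h]
      rw [h0, ih]
      by_cases hσ : σ i = b
      · rw [if_pos hσ, if_pos hσ]
        have h1 : ¬ Sat x.1 σ := by
          obtain ⟨k, h1, h2, h3⟩ := h
          have h4 : k = i := Finset.mem_singleton.1 h2
          subst h4
          intro h4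
          apply h3
          rw [← h4 k h1, hσ]
        rw [List.cons_append, evalL_neg h1]
      · rw [if_neg hσ, if_neg hσ]
    · have h0 : addL i b (x :: L) = ((insert i (x.1.1 \ {i}), Function.update x.1.2 i b), x.2) ::
          addL i b L := by
        unfold addL
        rw [fixL_neg h, List.map_cons]
      rw [h0, List.cons_append, List.cons_append]
      push Not at h
      have h1 : Sat (insert i (x.1.1 \ {i}), Function.update x.1.2 i b) σ ↔
          σ i = b ∧ Sat x.1 σ := by
        unfold Sat
        constructor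
        · intro h2
          have h3 : σ i = b := by
            have := h2 i (Finset.mem_insert_self _ _)
            simpa using this
          refine ⟨h3, fun k hk => ?_⟩
          by_cases hki : k = i
          · subst hki
            rw [h3]
            exact h k hk (Finset.mem_singleton_self k)
          · have := h2 k (Finset.mem_insert_of_mem (Finset.mem_sdiff.2 ⟨hk, by simpa using hki⟩))
            simpa [hki] using this
        · rintro ⟨h2, h3⟩ k hk
          by_cases hki : k = i
          · subst hki
            simpa using h2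
          · have h4 : k ∈ x.1.1 := by
              rcases Finset.mem_insert.1 hk with h5 | h5
              · exact absurd h5 hki
              · exact (Finset.mem_sdiff.1 h5).1
            simpa [hki] using h3 k h4
      by_cases hσ : σ i = b
      · rw [if_pos hσ]
        by_cases h2 : Sat x.1 σ
        · rw [evalL_pos h2, evalL_pos (h1.2 ⟨hσ, h2⟩)]
        · rw [evalL_neg h2, evalL_neg fun h3 => h2 (h1.1 h3).2, ih, if_pos hσ]
      · rw [if_neg hσ, evalL_neg fun h3 => hσ (h1.1 h3).1, ih, if_neg hσ]

theorem addL_width {w : ℕ} (i : V) (b : Bool) (L : List (Item V Y))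
    (hL : ∀ x ∈ L, x.1.1.card ≤ w) : ∀ x ∈ addL i b L, x.1.1.card ≤ w + 1 := by
  intro x hx
  obtain ⟨z, hz, rfl⟩ := List.mem_map.1 hx
  exact (Finset.card_insert_le _ _).trans (Nat.succ_le_succ (fixL_width _ _ L hL z hz))

/-- A decision tree is a decision list. -/
theorem Dt.toList {t : ℕ} : ∀ {e : (V → Bool) → Option Y} (_ : Dt t e),
    ∃ L : List (Item V Y), (∀ x ∈ L, x.1.1.card ≤ t) ∧ ∀ (R : List (Item V Y)) (y0 : Y)
      (σ : V → Bool), evalL (L ++ R) y0 σ = (e σ).getD (evalL R y0 σ) := by
  have hconst : ∀ {t : ℕ} {e : (V → Bool) → Option Y} (_ : ∀ σ τ, e σ = e τ),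
      ∃ L : List (Item V Y), (∀ x ∈ L, x.1.1.card ≤ t) ∧ ∀ (R : List (Item V Y)) (y0 : Y)
        (σ : V → Bool), evalL (L ++ R) y0 σ = (e σ).getD (evalL R y0 σ) := by
    intro t e he
    cases h : e fun _ => false with
    | none =>
      refine ⟨[], fun x hx => absurd hx List.not_mem_nil, fun R y0 σ => ?_⟩
      rw [he σ fun _ => false, h]
      rfl
    | some y =>
      refine ⟨[((∅, fun _ => false), y)], fun x hx => ?_, fun R y0 σ => ?_⟩
      · rw [List.mem_singleton.1 hx]
        simp
      · rw [he σ fun _ => false, h]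
        rw [List.cons_append, evalL_pos fun i hi => absurd hi (Finset.notMem_empty i)]
        rfl
  induction t with
  | zero =>
    intro e he
    exact hconst he
  | succ t ih =>
    intro e he
    rcases he with he | ⟨i, hi⟩
    · exact hconst he
    · choose L hL1 hL2 using fun b => ih (hi b)
      refine ⟨addL i false (L false) ++ addL i true (L true), fun x hx => ?_, fun R y0 σ => ?_⟩
      · rcases List.mem_append.1 hx with hx | hx
        · exact addL_width _ _ _ (hL1 false) x hx
        · exact addL_width _ _ _ (hL1 true) x hx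
      · rw [List.append_assoc, evalL_addL, evalL_addL]
        cases hσ : σ i with
        | false =>
          have h1 : Function.update σ i false = σ := by rw [← hσ, Function.update_eq_self]
          rw [if_pos rfl, hL2 false, h1, evalL_addL, hσ, if_neg (by simp)]
        | true =>
          have h1 : Function.update σ i true = σ := by rw [← hσ, Function.update_eq_self]
          rw [if_neg (by simp), if_pos rfl, hL2 true, h1]

theorem toList_many {w : ℕ} (es : List ((V → Bool) → Option Y)) (hes : ∀ e ∈ es, Dt w e) :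
    ∃ L : List (Item V Y), (∀ x ∈ L, x.1.1.card ≤ w) ∧ ∀ (R : List (Item V Y)) (y0 : Y)
      (σ : V → Bool), evalL (L ++ R) y0 σ =
        (es.findSome? fun e => e σ).getD (evalL R y0 σ) := by
  induction es with
  | nil => exact ⟨[], fun x hx => absurd hx List.not_mem_nil, fun R y0 σ => rfl⟩
  | cons e es ih =>
    obtain ⟨L, h1, h2⟩ := ih fun e' he' => hes e' (List.mem_cons_of_mem _ he')
    obtain ⟨L', h3, h4⟩ := (hes e List.mem_cons_self).toList
    refine ⟨L' ++ L, fun x hx => ?_, fun R y0 σ => ?_⟩
    · rcases List.mem_append.1 hx with hx | hx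
      · exact h3 x hx
      · exact h1 x hx
    · rw [List.append_assoc, h4, h2, List.findSome?_cons]
      cases e σ with
      | none => rfl
      | some y => rfl

/-- Decision lists of decision trees are decision lists. -/
theorem exists_list {w p : ℕ} (e : Fin p → (V → Bool) → Option Y) (he : ∀ k, Dt w (e k))
    (D : (V → Bool) → Y) (hD : Dt w D) (F : (V → Bool) → Y)
    (hF : ∀ σ, ((∀ k, e k σ = none) ∧ F σ = D σ) ∨
      ∃ k, (∀ l < k, e l σ = none) ∧ e k σ = some (F σ)) :
    ∃ L : List (Item V Y), (∀ x ∈ L, x.1.1.card ≤ w) ∧ ∀ y0 : Y, evalL L y0 = F := by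
  obtain ⟨L, h1, h2⟩ := toList_many ((List.finRange p).map e) (w := w) (by
    intro e' he'
    obtain ⟨k, -, rfl⟩ := List.mem_map.1 he'
    exact he k)
  obtain ⟨L', h3, h4⟩ := (hD.comp some).toList
  refine ⟨L ++ L', fun x hx => ?_, fun y0 => ?_⟩
  · rcases List.mem_append.1 hx with hx | hx
    · exact h1 x hx
    · exact h3 x hx
  · funext σ
    have h5 := h4 [] y0 σ
    rw [List.append_nil] at h5
    rw [h2, h5, List.findSome?_map]
    show ((List.finRange p).findSome? fun k => e k σ).getD (D σ) = F σ
    rcases findSome_finRange fun k => e k σ with ⟨h6, h7⟩ | ⟨k, h6, h7, h8⟩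
    · rw [h7]
      rcases hF σ with ⟨-, h9⟩ | ⟨k, -, h9⟩
      · rw [h9]
        rfl
      · rw [h6 k] at h9
        exact absurd h9 (by simp)
    · rw [h8]
      rcases hF σ with ⟨h9, -⟩ | ⟨k', h9, h10⟩
      · exact absurd (h9 k) h7
      · have h11 : k = k' := by
          rcases lt_trichotomy k k' with h | h | h
          · exact absurd (h9 k h) h7
          · exact h
          · have := h6 k' h
            rw [h10] at this
            exact absurd this (by simp)
        subst h11
        rw [h10]
        rfl

end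

end Pool.Agent.H58.OVT
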