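import Pool.Agent.H58.OVPR.Hash

/-! Machines which compute in rounds with several accesses to the memory. -/

set_option autoImplicit false
set_option maxHeartbeats 4000000

namespace Pool.Agent.H58.OVT

open Pool.Agent.H58.OVPR

/-- A machine which in every round reads `k` cells and then writes at most `k` cells. -/
structure Rnd (p k : ℕ) (Cell St Wd : Type) where
  read : ℕ → ℕ → Fin p → St → Cell
  next : ℕ → ℕ → Fin p → St → Wd → St
  write : ℕ → Fin p → St → Fin k → Option (Cell × Wd)

section

variable {p k : ℕ} {Cell St Wd : Type} [DecidableEq Cell]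

/-- The state after some reads. -/
def Rnd.loc (A : Rnd p k Cell St Wd) (t : ℕ) (P : Fin p) (m : Cell → Wd) (s : St) : ℕ → St
  | 0 => s
  | i + 1 => A.next t i P (A.loc t P m s i) (m (A.read t i P (A.loc t P m s i)))

/-- The new content of a cell. -/
def content2 (w : Fin p → Fin k → Option (Cell × Wd)) (c : Cell) (old : Wd) : Wd :=
  ((List.finRange p).findSome? fun P => (List.finRange k).findSome? fun i => item (w P i) c).getD
    old

/-- One round. -/
def Rnd.step (A : Rnd p k Cell St Wd) (t : ℕ) (z : (Fin p → St) × (Cell → Wd)) :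
    (Fin p → St) × (Cell → Wd) :=
  (fun P => A.loc t P z.2 (z.1 P) k,
    fun c => content2 (fun P => A.write t P (A.loc t P z.2 (z.1 P) k)) c (z.2 c))

/-- The configuration after some rounds. -/
def Rnd.run (A : Rnd p k Cell St Wd) (z : (Fin p → St) × (Cell → Wd)) :
    ℕ → (Fin p → St) × (Cell → Wd)
  | 0 => z
  | t + 1 => A.step t (A.run z t)

/-- The machine with one access in every step. -/
def Rnd.fine (A : Rnd p k Cell St Wd) : Mach (p * k) Cell St Wd where
  read τ Q s := A.read (τ / k) (τ % k) (finProdFinEquiv.symm Q).1 s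
  next τ Q s w := A.next (τ / k) (τ % k) (finProdFinEquiv.symm Q).1 s w
  write τ Q s := if k ∣ τ + 1 then
    A.write (τ / k) (finProdFinEquiv.symm Q).1 s (finProdFinEquiv.symm Q).2 else none

omit [DecidableEq Cell] in
theorem Rnd.fine_quiet (A : Rnd p k Cell St Wd) (τ : ℕ) (h : ¬ k ∣ τ + 1) (Q : Fin (p * k))
    (s : St) : A.fine.write τ Q s = none := if_neg h

theorem lt_prod {P P' : Fin p} {i i' : Fin k}
    (h : finProdFinEquiv (P', i') < finProdFinEquiv (P, i)) : P' < P ∨ (P' = P ∧ i' < i) := by
  have h1 : (i' : ℕ) + k * P' < i + k * P := h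
  rcases lt_trichotomy (P' : ℕ) P with h2 | h2 | h2
  · exact Or.inl h2
  · right
    have h3 : P' = P := Fin.ext h2
    subst h3
    refine ⟨rfl, ?_⟩
    show (i' : ℕ) < i
    omega
  · exfalso
    have h3 := i.2
    have h4 : k * (P + 1) ≤ k * (P' : ℕ) := Nat.mul_le_mul_left k h2
    rw [Nat.mul_succ] at h4
    omega

theorem findSome_unique {m : ℕ} {α : Type} (f : Fin m → Option α) (k : Fin m)
    (h1 : ∀ l < k, f l = none) (h2 : f k ≠ none) : (List.finRange m).findSome? f = f k := by
  rcases findSome_finRange f with ⟨h3, -⟩ | ⟨k', h3, h4, h5⟩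
  · exact absurd (h3 k) h2
  · rcases lt_trichotomy k k' with h | h | h
    · exact absurd (h3 k h) h2
    · rw [h5, h]
    · exact absurd (h1 k' h) h4

theorem findSome_prod {α : Type} (f : Fin p → Fin k → Option α) :
    ((List.finRange (p * k)).findSome? fun Q =>
      f (finProdFinEquiv.symm Q).1 (finProdFinEquiv.symm Q).2) =
    (List.finRange p).findSome? fun P => (List.finRange k).findSome? fun i => f P i := by
  rcases findSome_finRange fun P => (List.finRange k).findSome? fun i => f P i with
    ⟨h1, h2⟩ | ⟨P, h1, h2, h3⟩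
  · rw [h2, List.findSome?_eq_none_iff]
    intro Q _
    have h3 := h1 (finProdFinEquiv.symm Q).1
    rw [List.findSome?_eq_none_iff] at h3
    exact h3 _ (List.mem_finRange _)
  · rw [h3]
    rcases findSome_finRange fun i => f P i with ⟨h4, h5⟩ | ⟨i, h4, h5, h6⟩
    · exact absurd h5 h2
    · rw [h6]
      have h7 := findSome_unique (fun Q : Fin (p * k) =>
        f (finProdFinEquiv.symm Q).1 (finProdFinEquiv.symm Q).2) (finProdFinEquiv (P, i)) ?_ ?_
      · rw [h7]
        simp only [Equiv.symm_apply_apply]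
      · intro Q hQ
        obtain ⟨⟨P', i'⟩, rfl⟩ := finProdFinEquiv.surjective Q
        simp only [Equiv.symm_apply_apply]
        rcases lt_prod hQ with h | ⟨h, h'⟩
        · have h8 := h1 P' h
          rw [List.findSome?_eq_none_iff] at h8
          exact h8 _ (List.mem_finRange _)
        · rw [h]
          exact h4 i' h'
      · simp only [Equiv.symm_apply_apply]
        exact h5

theorem Rnd.fine_loc (A : Rnd p k Cell St Wd) (z : (Fin p → St) × (Cell → Wd)) (t : ℕ)
    (y : (Fin (p * k) → St) × (Cell → Wd))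
    (h : A.fine.run y (k * t) =
      (fun Q => (A.run z t).1 (finProdFinEquiv.symm Q).1, (A.run z t).2)) :
    ∀ i < k, (A.fine.run y (k * t + i)).1 = (fun Q =>
        A.loc t (finProdFinEquiv.symm Q).1 (A.run z t).2
          ((A.run z t).1 (finProdFinEquiv.symm Q).1) i) ∧
      (A.fine.run y (k * t + i)).2 = (A.run z t).2 := by
  intro i
  induction i with
  | zero =>
    intro _
    rw [Nat.add_zero, h]
    exact ⟨rfl, rfl⟩
  | succ i ih =>
    intro hi
    obtain ⟨h1, h2⟩ := ih (by omega)
    have hd : (k * t + i) / k = t := by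
      rw [Nat.mul_add_div (by omega), Nat.div_eq_of_lt (by omega), Nat.add_zero]
    have hm : (k * t + i) % k = i := by
      rw [Nat.mul_add_mod, Nat.mod_eq_of_lt (by omega)]
    constructor
    · funext Q
      show A.next ((k * t + i) / k) ((k * t + i) % k) (finProdFinEquiv.symm Q).1
        ((A.fine.run y (k * t + i)).1 Q) ((A.fine.run y (k * t + i)).2
          (A.read ((k * t + i) / k) ((k * t + i) % k) (finProdFinEquiv.symm Q).1
            ((A.fine.run y (k * t + i)).1 Q))) = _
      rw [h1, h2, hd, hm]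
      rfl
    · funext c
      show content (fun Q => A.fine.write (k * t + i) Q _) c ((A.fine.run y (k * t + i)).2 c) = _
      have hnd : ¬ k ∣ k * t + i + 1 := by
        rw [Nat.add_assoc, Nat.dvd_add_right (dvd_mul_right k t)]
        exact Nat.not_dvd_of_pos_of_lt (Nat.succ_pos i) hi
      have h3 : ∀ s : Fin (p * k) → St, (fun Q => A.fine.write (k * t + i) Q (s Q)) =
          fun _ => none := by
        intro s
        funext Q
        exact A.fine_quiet _ hnd Q _
      rw [h3, h2]
      rcases content_spec (fun _ : Fin (p * k) => (none : Option (Cell × Wd))) c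
        ((A.run z t).2 c) with ⟨-, h4⟩ | ⟨Q, -, h4⟩
      · exact h4
      · exact absurd h4 (by simp [item])

theorem Rnd.fine_run (A : Rnd p k Cell St Wd) (hk : 1 ≤ k) (z : (Fin p → St) × (Cell → Wd)) :
    ∀ t, A.fine.run (fun Q => z.1 (finProdFinEquiv.symm Q).1, z.2) (k * t) =
      (fun Q => (A.run z t).1 (finProdFinEquiv.symm Q).1, (A.run z t).2) := by
  intro t
  induction t with
  | zero => rfl
  | succ t ih =>
    obtain ⟨k', rfl⟩ : ∃ k', k = k' + 1 := ⟨k - 1, by omega⟩
    obtain ⟨h1, h2⟩ := A.fine_loc z t _ ih k' (by omega)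
    have hd : ((k' + 1) * t + k') / (k' + 1) = t := by
      rw [Nat.mul_add_div (by omega), Nat.div_eq_of_lt (by omega), Nat.add_zero]
    have hm : ((k' + 1) * t + k') % (k' + 1) = k' := by
      rw [Nat.mul_add_mod, Nat.mod_eq_of_lt (by omega)]
    have hdvd : (k' + 1) ∣ (k' + 1) * t + k' + 1 := ⟨t + 1, by ring⟩
    have hs : ∀ Q, (A.fine.run (fun Q => z.1 (finProdFinEquiv.symm Q).1, z.2)
        ((k' + 1) * t + k' + 1)).1 Q = A.loc t (finProdFinEquiv.symm Q).1 (A.run z t).2
          ((A.run z t).1 (finProdFinEquiv.symm Q).1) (k' + 1) := by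
      intro Q
      show A.next (((k' + 1) * t + k') / (k' + 1)) (((k' + 1) * t + k') % (k' + 1))
        (finProdFinEquiv.symm Q).1 _ _ = _
      rw [hd, hm]
      show A.next t k' _ ((A.fine.run _ ((k' + 1) * t + k')).1 Q)
        ((A.fine.run _ ((k' + 1) * t + k')).2 (A.read (((k' + 1) * t + k') / (k' + 1))
          (((k' + 1) * t + k') % (k' + 1)) (finProdFinEquiv.symm Q).1
          ((A.fine.run _ ((k' + 1) * t + k')).1 Q))) = _
      rw [hd, hm, h1, h2]
      rfl
    have he : (k' + 1) * (t + 1) = (k' + 1) * t + k' + 1 := by ring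
    rw [he]
    refine Prod.ext (funext hs) ?_
    funext c
    show content (fun Q => A.fine.write ((k' + 1) * t + k') Q
      ((A.fine.run _ ((k' + 1) * t + k' + 1)).1 Q)) c
      ((A.fine.run _ ((k' + 1) * t + k')).2 c) = _
    rw [h2]
    have hw : (fun Q => A.fine.write ((k' + 1) * t + k') Q
        ((A.fine.run (fun Q => z.1 (finProdFinEquiv.symm Q).1, z.2)
          ((k' + 1) * t + k' + 1)).1 Q)) = fun Q =>
        A.write t (finProdFinEquiv.symm Q).1 (A.loc t (finProdFinEquiv.symm Q).1 (A.run z t).2
          ((A.run z t).1 (finProdFinEquiv.symm Q).1) (k' + 1)) (finProdFinEquiv.symm Q).2 := by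
      funext Q
      rw [hs Q]
      show (if (k' + 1) ∣ (k' + 1) * t + k' + 1 then _ else none) = _
      rw [if_pos hdvd, hd]
    rw [hw]
    show ((List.finRange (p * (k' + 1))).findSome? _).getD _ = content2 _ c _
    unfold content2
    congr 1
    exact findSome_prod fun P i => item (A.write t P (A.loc t P (A.run z t).2
      ((A.run z t).1 P) (k' + 1)) i) c

end

end Pool.Agent.H58.OVT
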